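import Pool.Agent.TH59.TD.Tower

/-!
# Infinite transitivity degree does not imply high transitivity (helper59)
-/

set_option autoImplicit false

namespace Pool.Agent.TH59.TD

open Pool.Agent.TH65.B Pool.Agent.TH714.TD

/-- words act on an embedded finite set through the symmetric group -/
theorem act {R : Subgroup F2} [R.Normal] {X : Type} [MulAction (F2 ⧸ R) X] (k : ℕ)
    (p : Fin (k + 1) ↪ X) (u v a b : F2)
    (hu : ∀ i, (u : F2 ⧸ R) • p i = p (finRotate (k + 1) i))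
    (hv : ∀ i, (v : F2 ⧸ R) • p i = p (Equiv.swap 0 (finRotate (k + 1) 0) i))
    (ha : ∀ i, (a : F2 ⧸ R) • p i = p i) (hb : ∀ i, (b : F2 ⧸ R) • p i = p i) (W : F4) :
    ∀ i, ((sb4 u v a b W : F2) : F2 ⧸ R) • p i = p (tau4 k W i) := by
  have hgen : ∀ j : Fin 4, ∀ i, ((sb4 u v a b (FreeGroup.of j) : F2) : F2 ⧸ R) • p i =
      p (tau4 k (FreeGroup.of j) i) := by
    intro j i
    have h1 : sb4 u v a b (FreeGroup.of j) = ![u, v, a, b] j := by
      unfold sb4
      rw [FreeGroup.lift_apply_of]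
    have h2 : tau4 k (FreeGroup.of j) =
        ![finRotate (k + 1), Equiv.swap 0 (finRotate (k + 1) 0), 1, 1] j := by
      unfold tau4
      rw [FreeGroup.lift_apply_of]
    rw [h1, h2]
    fin_cases j
    · exact hu i
    · exact hv i
    · exact ha i
    · exact hb i
  induction W using FreeGroup.induction_on with
  | C1 =>
    intro i
    simp
  | of j => exact hgen j
  | inv_of j _ =>
    intro i
    rw [map_inv, map_inv, QuotientGroup.mk_inv, inv_smul_eq_iff, hgen j]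
    congr 1
    simp
  | mul c d hc hd =>
    intro i
    rw [map_mul, map_mul, QuotientGroup.mk_mul, mul_smul, hd, hc]
    rfl

theorem act_not {R : Subgroup F2} [R.Normal] {X : Type} [MulAction (F2 ⧸ R) X] (k : ℕ)
    (p : Fin (k + 1) ↪ X) (u v a b : F2)
    (hu : ∀ i, (u : F2 ⧸ R) • p i = p (finRotate (k + 1) i))
    (hv : ∀ i, (v : F2 ⧸ R) • p i = p (Equiv.swap 0 (finRotate (k + 1) 0) i))
    (ha : ∀ i, (a : F2 ⧸ R) • p i = p i) (hb : ∀ i, (b : F2 ⧸ R) • p i = p i) (W : F4)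
    (hW : tau4 k W ≠ 1) : sb4 u v a b W ∉ R := by
  intro hmem
  apply hW
  apply Equiv.ext
  intro i
  have h1 := act k p u v a b hu hv ha hb W i
  rw [(QuotientGroup.eq_one_iff _).2 hmem, one_smul] at h1
  exact (p.injective h1).symm

theorem act_comm {R : Subgroup F2} [R.Normal] {X : Type} [MulAction (F2 ⧸ R) X] (k : ℕ)
    (hk : 2 ≤ k) (p : Fin (k + 1) ↪ X) (u v : F2)
    (hu : ∀ i, (u : F2 ⧸ R) • p i = p (finRotate (k + 1) i))
    (hv : ∀ i, (v : F2 ⧸ R) • p i = p (Equiv.swap 0 (finRotate (k + 1) 0) i)) :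
    u * v * u⁻¹ * v⁻¹ ∉ R := by
  have h := act_not k p u v 1 1 hu hv (fun i => by rw [QuotientGroup.mk_one, one_smul])
    (fun i => by rw [QuotientGroup.mk_one, one_smul])
    (in1 (FreeGroup.of 0 * FreeGroup.of 1 * (FreeGroup.of 0)⁻¹ * (FreeGroup.of 1)⁻¹)) (by
      rw [tau4_in1]
      exact tau_comm k hk)
  rwa [sb4_in1, map_mul, map_mul, map_mul, map_inv, map_inv, sb_zero, sb_one] at h

/-- elements fixing a finite set and moving three points -/
theorem exists_fix {G X : Type} [Group G] [MulAction G X]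
    (hX : ∀ n : ℕ, MulAction.IsMultiplyPretransitive G X n) (S : Finset X) (q q' : Fin 3 ↪ X)
    (hq : ∀ i, q i ∉ S) (hq' : ∀ i, q' i ∉ S) :
    ∃ g : G, (∀ x ∈ S, g • x = x) ∧ ∀ i, g • q i = q' i := by
  classical
  let e : Fin S.card ≃ S := S.equivFin.symm
  have hinj : ∀ q : Fin 3 ↪ X, (∀ i, q i ∉ S) →
      Function.Injective (Sum.elim (fun i => (e i : X)) q) := by
    intro q hq
    apply Function.Injective.sumElim
    · intro i j hij
      exact e.injective (Subtype.ext hij)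
    · exact q.injective
    · intro i j hij
      apply hq j
      rw [← hij]
      exact (e i).2
  let P : ∀ q : Fin 3 ↪ X, (∀ i, q i ∉ S) → (Fin (S.card + 3) ↪ X) := fun q hq =>
    (finSumFinEquiv.symm.toEmbedding).trans ⟨Sum.elim (fun i => (e i : X)) q, hinj q hq⟩
  obtain ⟨g, hg⟩ := (MulAction.isMultiplyPretransitive_iff.1 (hX (S.card + 3))) (P q hq) (P q' hq')
  have hg' : ∀ j, g • (P q hq j) = P q' hq' j := by
    intro j
    rw [← hg]
    rfl
  have hPl : ∀ (q : Fin 3 ↪ X) (hq : ∀ i, q i ∉ S) (i : Fin S.card),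
      P q hq (finSumFinEquiv (Sum.inl i)) = (e i : X) := by
    intro q hq i
    show Sum.elim (fun i => (e i : X)) q (finSumFinEquiv.symm (finSumFinEquiv (Sum.inl i))) = _
    rw [Equiv.symm_apply_apply]
    rfl
  have hPr : ∀ (q : Fin 3 ↪ X) (hq : ∀ i, q i ∉ S) (i : Fin 3),
      P q hq (finSumFinEquiv (Sum.inr i)) = q i := by
    intro q hq i
    show Sum.elim (fun i => (e i : X)) q (finSumFinEquiv.symm (finSumFinEquiv (Sum.inr i))) = _
    rw [Equiv.symm_apply_apply]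
    rfl
  refine ⟨g, ?_, ?_⟩
  · intro x hx
    have h1 := hg' (finSumFinEquiv (Sum.inl (e.symm ⟨x, hx⟩)))
    rw [hPl q hq, hPl q' hq', Equiv.apply_symm_apply] at h1
    exact h1
  · intro i
    have h1 := hg' (finSumFinEquiv (Sum.inr i))
    rwa [hPr q hq, hPr q' hq'] at h1

/-- **the main theorem** -/
theorem main : ∃ (G : Type) (_ : Group G), Countable G ∧
    (∀ k : ℕ, ∃ (X : Type) (_ : MulAction G X),
      FaithfulSMul G X ∧ Nonempty (Fin k ↪ X) ∧ MulAction.IsMultiplyPretransitive G X k) ∧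
    ¬ ∃ (X : Type) (_ : MulAction G X),
      FaithfulSMul G X ∧ Infinite X ∧ ∀ n : ℕ, MulAction.IsMultiplyPretransitive G X n := by
  classical
  obtain ⟨R, hR, Lh, T, hRL, hmany, hcore, htup, huniq, hpair⟩ := limit
  have hcount : Countable (F2 ⧸ R) := QuotientGroup.mk_surjective.countable
  refine ⟨F2 ⧸ R, inferInstance, hcount, ?_, ?_⟩
  · intro k
    obtain ⟨L, hL⟩ : ∃ L : Subgroup (F2 ⧸ R), L = (Lh k).map (QuotientGroup.mk' R) := ⟨_, rfl⟩
    have hmem : ∀ g : F2, (g : F2 ⧸ R) ∈ L ↔ g ∈ Lh k := by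
      intro g
      rw [hL]
      constructor
      · rintro ⟨l, hl, hlg⟩
        have h1 : l⁻¹ * g ∈ R := QuotientGroup.eq.1 hlg
        have h2 := (Lh k).mul_mem hl (hRL k h1)
        rwa [mul_inv_cancel_left] at h2
      · intro hg
        exact ⟨g, hg, rfl⟩
    obtain ⟨h, hh⟩ := hmany k
    have hinj : Function.Injective (fun i : Fin (k + 2) =>
        (((h i : F2) : F2 ⧸ R) : (F2 ⧸ R) ⧸ L)) := by
      intro i j hij
      by_contra hne
      apply hh i j hne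
      have h1 := QuotientGroup.eq.1 hij
      rwa [← QuotientGroup.mk_inv, ← QuotientGroup.mk_mul, hmem] at h1
    have htr : MulAction.IsMultiplyPretransitive (F2 ⧸ R) ((F2 ⧸ R) ⧸ L) (k + 2) := by
      rw [MulAction.isMultiplyPretransitive_iff]
      intro x y
      -- representatives
      have hrep : ∀ z : (F2 ⧸ R) ⧸ L, ∃ g : F2, (((g : F2) : F2 ⧸ R) : (F2 ⧸ R) ⧸ L) = z := by
        intro z
        obtain ⟨z, rfl⟩ := QuotientGroup.mk_surjective z
        obtain ⟨z, rfl⟩ := QuotientGroup.mk_surjective z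
        exact ⟨z, rfl⟩
      choose a ha using fun i => hrep (x i)
      choose b hb using fun i => hrep (y i)
      have hdis : ∀ (x : Fin (k + 2) ↪ (F2 ⧸ R) ⧸ L) (a : Fin (k + 2) → F2),
          (∀ i, (((a i : F2) : F2 ⧸ R) : (F2 ⧸ R) ⧸ L) = x i) →
          ∀ s t, s ≠ t → (a s)⁻¹ * a t ∉ Lh k := by
        intro x a ha s t hst hm
        apply hst
        apply x.injective
        rw [← ha, ← ha, QuotientGroup.eq, ← QuotientGroup.mk_inv, ← QuotientGroup.mk_mul, hmem]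
        exact hm
      obtain ⟨g, hg⟩ := htup k a b (hdis x a ha) (hdis y b hb)
      refine ⟨(g : F2 ⧸ R), ?_⟩
      ext i
      show (g : F2 ⧸ R) • x i = y i
      rw [← ha, ← hb]
      show ((((g : F2) : F2 ⧸ R) * ((a i : F2) : F2 ⧸ R) : F2 ⧸ R) : (F2 ⧸ R) ⧸ L) = _
      rw [Eq.comm, QuotientGroup.eq, ← QuotientGroup.mk_mul, ← QuotientGroup.mk_inv,
        ← QuotientGroup.mk_mul, hmem, ← mul_assoc]
      exact hg i
    refine ⟨(F2 ⧸ R) ⧸ L, inferInstance, ⟨?_⟩, ⟨(Fin.castAddEmb 2).trans ⟨_, hinj⟩⟩, ?_⟩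
    · intro g g' hgg
      obtain ⟨g, rfl⟩ := QuotientGroup.mk_surjective g
      obtain ⟨g', rfl⟩ := QuotientGroup.mk_surjective g'
      rw [QuotientGroup.eq]
      by_contra hne
      obtain ⟨p, hp⟩ := hcore k _ hne
      apply hp
      have h1 := hgg (((p : F2) : F2 ⧸ R) : (F2 ⧸ R) ⧸ L)
      have h2 : ((((g : F2) : F2 ⧸ R) * ((p : F2) : F2 ⧸ R) : F2 ⧸ R) : (F2 ⧸ R) ⧸ L) =
        ((((g' : F2) : F2 ⧸ R) * ((p : F2) : F2 ⧸ R) : F2 ⧸ R) : (F2 ⧸ R) ⧸ L) := h1
      rw [QuotientGroup.eq, ← QuotientGroup.mk_mul, ← QuotientGroup.mk_mul,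
        ← QuotientGroup.mk_inv, ← QuotientGroup.mk_mul, hmem] at h2
      rwa [show (g * p)⁻¹ * (g' * p) = p⁻¹ * (g⁻¹ * g') * p by group] at h2
    · refine MulAction.isMultiplyPretransitive_of_le' (n := k + 2) (by omega) ?_
      have h1 := ENat.card_le_card_of_injective hinj
      rwa [ENat.card_eq_coe_fintype_card, Fintype.card_fin] at h1
  · rintro ⟨X, _, hfaith, hinf, htr⟩
    have hlift : ∀ (n : ℕ) (p : Fin n ↪ X) (σ : Equiv.Perm (Fin n)), ∃ u : F2, ∀ i,
        (u : F2 ⧸ R) • p i = p (σ i) := by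
      intro n p σ
      obtain ⟨g, hg⟩ := (MulAction.isMultiplyPretransitive_iff.1 (htr n)) p
        (σ.toEmbedding.trans p)
      obtain ⟨u, rfl⟩ := QuotientGroup.mk_surjective g
      refine ⟨u, fun i => ?_⟩
      have h1 := DFunLike.congr_fun hg i
      exact h1
    have htriv : ∀ {k : ℕ} (p : Fin (k + 1) ↪ X) (i : Fin (k + 1)),
        (((1 : F2) : F2) : F2 ⧸ R) • p i = p i := by
      intro k p i
      rw [QuotientGroup.mk_one, one_smul]
    obtain ⟨p0⟩ : Nonempty (Fin (mm 0 + 1) ↪ X) :=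
      ⟨(Fin.valEmbedding).trans (Infinite.natEmbedding X)⟩
    obtain ⟨u0, hu0⟩ := hlift _ p0 (finRotate (mm 0 + 1))
    obtain ⟨v0, hv0⟩ := hlift _ p0 (Equiv.swap 0 (finRotate (mm 0 + 1) 0))
    have huv0 := act_comm (mm 0) (mm_two 0) p0 u0 v0 hu0 hv0
    obtain ⟨i0, hi0⟩ : ∃ i, T i u0 v0 := by
      rcases hpair 0 u0 v0 1 1 with ⟨W, hW, hW2⟩ | ⟨i, -, hi, -⟩
      · exact absurd hW2 (act_not (mm 0) p0 u0 v0 1 1 hu0 hv0 (htriv p0) (htriv p0) W hW)
      · exact ⟨i, hi⟩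
    obtain ⟨p⟩ : Nonempty (Fin (mm (i0 + 1) + 1) ↪ X) :=
      ⟨(Fin.valEmbedding).trans (Infinite.natEmbedding X)⟩
    obtain ⟨u, hu⟩ := hlift _ p (finRotate (mm (i0 + 1) + 1))
    obtain ⟨v, hv⟩ := hlift _ p (Equiv.swap 0 (finRotate (mm (i0 + 1) + 1) 0))
    -- a noncommuting pair fixing both sets
    let S : Finset X := Finset.univ.map p0 ∪ Finset.univ.map p
    have hS0 : ∀ i, p0 i ∈ S := fun i =>
      Finset.mem_union_left _ (Finset.mem_map_of_mem _ (Finset.mem_univ i))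
    have hSp : ∀ i, p i ∈ S := fun i =>
      Finset.mem_union_right _ (Finset.mem_map_of_mem _ (Finset.mem_univ i))
    obtain ⟨q, hq⟩ : ∃ q : Fin 3 ↪ X, ∀ i, q i ∉ S := by
      have h1 : ((S : Set X)ᶜ).Infinite := S.finite_toSet.infinite_compl
      have h2 : Infinite ↥((S : Set X)ᶜ) := h1.to_subtype
      refine ⟨((Fin.valEmbedding).trans (Infinite.natEmbedding ↥((S : Set X)ᶜ))).trans
        (Function.Embedding.subtype _), fun i => ?_⟩
      exact ((Infinite.natEmbedding ↥((S : Set X)ᶜ)) i).2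
    have hperm : ∀ σ : Equiv.Perm (Fin 3), ∃ a : F2, (∀ x ∈ S, (a : F2 ⧸ R) • x = x) ∧
        ∀ i, (a : F2 ⧸ R) • q i = q (σ i) := by
      intro σ
      obtain ⟨g, hg1, hg2⟩ := exists_fix htr S q (σ.toEmbedding.trans q) hq (fun i => hq _)
      obtain ⟨a, rfl⟩ := QuotientGroup.mk_surjective g
      exact ⟨a, hg1, hg2⟩
    obtain ⟨a, haS, haq⟩ := hperm (finRotate 3)
    obtain ⟨b, hbS, hbq⟩ := hperm (Equiv.swap 0 (finRotate 3 0))
    have hab := act_comm 2 le_rfl q a b haq hbq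
    obtain ⟨i, hi1, hi2⟩ : ∃ i, T i u0 v0 ∧ T i a b := by
      rcases hpair 0 u0 v0 a b with ⟨W, hW, hW2⟩ | ⟨i, -, hi, hi'⟩
      · exact absurd hW2 (act_not (mm 0) p0 u0 v0 a b hu0 hv0 (fun i => haS _ (hS0 i))
          (fun i => hbS _ (hS0 i)) W hW)
      · exact ⟨i, hi, hi'⟩
    obtain ⟨j, hj, hj1⟩ : ∃ j ≥ i0 + 1, T j a b := by
      rcases hpair (i0 + 1) u v a b with ⟨W, hW, hW2⟩ | ⟨j, hj, -, hj'⟩
      · exact absurd hW2 (act_not (mm (i0 + 1)) p u v a b hu hv (fun i => haS _ (hSp i))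
          (fun i => hbS _ (hSp i)) W hW)
      · exact ⟨j, hj, hj'⟩
    have e1 := huniq _ _ _ _ huv0 hi0 hi1
    have e2 := huniq _ _ _ _ hab hi2 hj1
    omega

end Pool.Agent.TH59.TD
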