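import Pool.Agent.TH993.J2321
import Pool.Agent.TH359.TDBoth

/-!
# The core statement for several subgroups, and periodic words against another subgroup (helper59)

Adapted from `Pool.Agent.TH993.J2321.core` and `Pool.Agent.TH359.J2322.no_mix`, which treat one
subgroup.
-/

set_option autoImplicit false

namespace Pool.Agent.TH59.TD

open Pool.Agent.TH64 Pool.Agent.TH65.B Pool.Agent.TH714.TD Pool.Agent.TH993.J2321
  Pool.Agent.TH359.TDBoth

theorem core {G : Type} [Group G] {H : Hyp G} {E : ℝ} {Ps : Finset ℕ} (hL : LevP H E Ps)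
    (hPs : ∀ p ∈ Ps, p.Prime ∧ Odd p) (hsep : ∀ p ∈ Ps, ∀ q ∈ Ps, ¬ p ∣ q - 1)
    {m : ℕ} (L : Fin m → Subgroup G) (k : Fin m → ℕ) (hk : ∀ i, Few (L i) (k i))
    (hroot : ∀ (x : G) (A : Ax H x), GamRoot A)
    (hfix : ∀ i, ∀ (x : G) (A : Ax H x), GamFix A (L i))
    (hinf : ∀ (x : G) (_ : Ax H x) (c : G), c ∉ Subgroup.zpowers x →
      ∃ n0 : ℕ, ∀ n ≥ n0, ¬ IsOfFinOrder (c * x ^ n))
    (hneu : ∀ {F : Type} [Group F] {X : Type} [MulAction F X] (A B : Set X), A.Finite → B.Finite →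
      (∀ p ∈ A, (MulAction.orbit F p).Infinite) → ∃ g : F, ∀ p ∈ A, g • p ∉ B)
    {F : Type} [Group F] (φ : F →* G) (hφ : ∃ u v : F, φ u * φ v ≠ φ v * φ u)
    (F0 : Subgroup F) [F0.Normal] [F0.FiniteIndex] (C0 : F) :
    ∃ (W : F) (y : G), C0⁻¹ * W ∈ F0 ∧ Nonempty (Ax H y) ∧ (φ W = y ∨ φ W = y⁻¹) ∧
      ∀ i, ∀ u : G, ∀ t : ℤ, t ≠ 0 → u * y ^ t * u⁻¹ ∈ L i →
        {p : G ⧸ L i | ∃ w : F, p = ((φ w * u⁻¹ : G) : G ⧸ L i)}.Finite := by
  classical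
  obtain ⟨u0, v0, huv⟩ := hφ
  obtain ⟨x, ⟨A⟩, hx, ⟨k1, hk1, hk1K⟩, h, hhK, hhx⟩ := noncomm_data hL hPs hsep φ.range
    (φ u0) (φ v0) ⟨u0, rfl⟩ ⟨v0, rfl⟩ huv
  obtain ⟨κ, hκ, Y, hY⟩ : ∃ κ : ℕ, 0 < κ ∧ ∃ Y : F, φ Y = x ^ κ := by
    refine ⟨k1.natAbs, Int.natAbs_pos.2 hk1, ?_⟩
    have : x ^ k1.natAbs ∈ φ.range := by
      rcases Int.natAbs_eq k1 with h1 | h1
      · rwa [h1, zpow_natCast] at hk1K
      · rw [h1, zpow_neg, zpow_natCast] at hk1K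
        exact (Subgroup.inv_mem_iff _).1 hk1K
    exact this
  have hPx : ∀ i, (Pt (L i) x).Finite := fun i => Pt_finite (hk i) hx
  have hDex := fun i => exists_D (L i) x (Pt (L i) x) (hPx i) le_rfl
  choose Di hDi hDix using hDex
  obtain ⟨D, hDdef⟩ : ∃ D : ℕ, D = ∏ i, Di i := ⟨_, rfl⟩
  have hD : 0 < D := by
    rw [hDdef]
    exact Finset.prod_pos (fun i _ => hDi i)
  have hDx : ∀ i, ∀ p ∈ Pt (L i) x, x ^ (D : ℤ) • p = p := by
    intro i p hp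
    obtain ⟨e, he⟩ : Di i ∣ D := by
      rw [hDdef]
      exact Finset.dvd_prod_of_mem Di (Finset.mem_univ i)
    rw [he, Nat.cast_mul, zpow_mul]
    exact fix_zpow (hDix i p hp) _
  -- the bad points with infinite orbits
  let P1 : ∀ i, Set (G ⧸ L i) := fun i => {p | p ∈ Pt (L i) x ∧ {q | ∃ w : F, q = φ w • p}.Infinite}
  have hP1 : ∀ i, (P1 i).Finite := fun i => (hPx i).subset fun p hp => hp.1
  -- the orbit of the trivial coset of `⟨x⟩`
  have horb : {q : G ⧸ Subgroup.zpowers x | ∃ w : F, q = φ w • ((1 : G) : G ⧸ Subgroup.zpowers x)}.Infinite := by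
    intro hfin
    have hall : ∀ w : F, φ w ∈ Subgroup.zpowers x := by
      intro w
      obtain ⟨j1, -, j2, -, hne, heq⟩ := Set.Infinite.exists_ne_map_eq_of_mapsTo
        (s := (Set.univ : Set ℕ)) (f := fun j : ℕ => φ (w * Y ^ j * w⁻¹) •
          ((1 : G) : G ⧸ Subgroup.zpowers x)) Set.infinite_univ
        (t := {q : G ⧸ Subgroup.zpowers x | ∃ w : F, q = φ w • ((1 : G) : G ⧸ Subgroup.zpowers x)})
        (fun j _ => ⟨_, rfl⟩) hfin
      have key : ∀ j1 j2 : ℕ, j1 < j2 → φ (w * Y ^ j1 * w⁻¹) •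
          ((1 : G) : G ⧸ Subgroup.zpowers x) = φ (w * Y ^ j2 * w⁻¹) •
          ((1 : G) : G ⧸ Subgroup.zpowers x) → φ w ∈ Subgroup.zpowers x := by
        intro j1 j2 hj heq
        have h1 : (((φ (w * Y ^ j1 * w⁻¹) * 1 : G)) : G ⧸ Subgroup.zpowers x) =
          ((φ (w * Y ^ j2 * w⁻¹) * 1 : G) : G ⧸ Subgroup.zpowers x) := heq
        rw [mul_one, mul_one, QuotientGroup.eq, ← map_inv, ← map_mul] at h1
        have h2 : (w * Y ^ j1 * w⁻¹)⁻¹ * (w * Y ^ j2 * w⁻¹) = w * Y ^ (j2 - j1) * w⁻¹ := by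
          have h3 : Y ^ j2 = Y ^ j1 * Y ^ (j2 - j1) := by rw [← pow_add]; congr 1; omega
          rw [h3]; group
        rw [h2, map_mul, map_mul, map_pow, map_inv, hY, ← pow_mul] at h1
        obtain ⟨s, hs⟩ := h1
        have hs' : x ^ s = φ w * x ^ (κ * (j2 - j1)) * (φ w)⁻¹ := hs
        refine A.elem (t := ((κ * (j2 - j1) : ℕ) : ℤ)) (s := s) ?_ ?_
        · have : 0 < κ * (j2 - j1) := Nat.mul_pos hκ (by omega)
          omega
        · rw [zpow_natCast, hs']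
      rcases lt_or_gt_of_ne hne with h1 | h1
      · exact key j1 j2 h1 heq
      · exact key j2 j1 h1 heq.symm
    obtain ⟨w, hw⟩ := hhK
    exact hhx (hw ▸ hall w)
  -- choice of `c`
  obtain ⟨g0, hg0F, hg0⟩ : ∃ g0 ∈ F0, (∀ i, ∀ p ∈ P1 i, φ (C0 * g0) • p ∉ P1 i) ∧
      φ (C0 * g0) ∉ Subgroup.zpowers x := by
    let _ : MulAction F0 ((Σ i, G ⧸ L i) ⊕ (G ⧸ Subgroup.zpowers x)) :=
      MulAction.compHom _ (φ.comp F0.subtype)
    let S : Set ((Σ i, G ⧸ L i) ⊕ (G ⧸ Subgroup.zpowers x)) :=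
      (⋃ i, (fun q => Sum.inl ⟨i, q⟩) '' P1 i) ∪ {Sum.inr ((1 : G) : G ⧸ Subgroup.zpowers x)}
    have hS : S.Finite :=
      (Set.finite_iUnion (fun i => (hP1 i).image _)).union (Set.finite_singleton _)
    obtain ⟨g0, hg0⟩ := hneu (F := F0) S ((fun q => (φ C0)⁻¹ • q) '' S) hS (hS.image _) (by
      intro p hp
      have hsub : ∀ {X : Type} [MulAction G X] (ι : X → (Σ i, G ⧸ L i) ⊕ (G ⧸ Subgroup.zpowers x))
          (q : X), Function.Injective ι → (∀ (g : G) (q : X), g • ι q = ι (g • q)) →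
          {r | ∃ w : F, r = φ w • q}.Infinite → (MulAction.orbit F0 (ι q)).Infinite := by
        intro X _ ι q hι hsm hinf
        have h1 := (orbit_inf φ F0 q hinf).image (f := ι) hι.injOn
        refine h1.mono ?_
        rintro _ ⟨_, ⟨w, rfl⟩, rfl⟩
        refine ⟨w, ?_⟩
        show φ w • ι q = ι (φ w • q)
        exact hsm _ _
      rcases hp with hp | hp
      · obtain ⟨i, hpi⟩ := Set.mem_iUnion.1 hp
        obtain ⟨p', hp', rfl⟩ := hpi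
        refine hsub (fun q => Sum.inl ⟨i, q⟩) p' ?_ (fun _ _ => rfl) hp'.2
        intro q q' hqq
        have h1 := Sum.inl_injective hqq
        exact eq_of_heq (Sigma.mk.inj h1).2
      · rw [Set.mem_singleton_iff] at hp
        rw [hp]
        exact hsub Sum.inr _ Sum.inr_injective (fun _ _ => rfl) horb)
    refine ⟨g0, g0.2, ?_, ?_⟩
    · intro i p hp hcp
      apply hg0 (Sum.inl ⟨i, p⟩) (Or.inl (Set.mem_iUnion.2 ⟨i, ⟨p, hp, rfl⟩⟩))
      refine ⟨Sum.inl ⟨i, φ (C0 * g0) • p⟩, Or.inl (Set.mem_iUnion.2 ⟨i, ⟨_, hcp, rfl⟩⟩), ?_⟩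
      show (Sum.inl ⟨i, (φ C0)⁻¹ • φ (C0 * g0) • p⟩ :
        (Σ i, G ⧸ L i) ⊕ (G ⧸ Subgroup.zpowers x)) = Sum.inl ⟨i, φ g0 • p⟩
      rw [smul_smul, map_mul, inv_mul_cancel_left]
    · intro hcx
      apply hg0 (Sum.inr ((1 : G) : G ⧸ Subgroup.zpowers x)) (Or.inr rfl)
      refine ⟨Sum.inr ((1 : G) : G ⧸ Subgroup.zpowers x), Or.inr rfl, ?_⟩
      show Sum.inr ((φ C0)⁻¹ • ((1 : G) : G ⧸ Subgroup.zpowers x)) =
        (Sum.inr (φ g0 • ((1 : G) : G ⧸ Subgroup.zpowers x)) :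
          (Σ i, G ⧸ L i) ⊕ (G ⧸ Subgroup.zpowers x))
      congr 1
      show ((((φ C0)⁻¹ * 1 : G)) : G ⧸ Subgroup.zpowers x) =
        ((φ g0 * 1 : G) : G ⧸ Subgroup.zpowers x)
      rw [QuotientGroup.eq, mul_one, mul_one, inv_inv, ← map_mul]
      exact hcx
  obtain ⟨hc1, hcx⟩ := hg0
  obtain ⟨c, hc⟩ : ∃ c, c = φ (C0 * g0) := ⟨_, rfl⟩
  rw [← hc] at hc1 hcx
  obtain ⟨n1, hn1⟩ := hroot x A c hcx
  have hn2ex := fun i => hfix i x A c hcx
  choose n2' hn2' using hn2ex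
  obtain ⟨n2, hn2def⟩ : ∃ n2 : ℕ, n2 = ∑ i, n2' i := ⟨_, rfl⟩
  have hn2le : ∀ i, n2' i ≤ n2 := by
    intro i
    rw [hn2def]
    exact Finset.single_le_sum (f := n2') (fun _ _ => Nat.zero_le _) (Finset.mem_univ i)
  obtain ⟨n3, hn3⟩ := hinf x A c hcx
  have hs0 : F0.index ≠ 0 := Subgroup.FiniteIndex.index_ne_zero
  obtain ⟨M, hM⟩ : ∃ M : ℕ, M = F0.index * (D * (n1 + n2 + n3 + 1)) := ⟨_, rfl⟩
  obtain ⟨n, hn⟩ : ∃ n : ℕ, n = κ * M := ⟨_, rfl⟩
  have hnge : n1 + n2 + n3 + 1 ≤ n := by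
    rw [hn, hM]
    calc n1 + n2 + n3 + 1 ≤ D * (n1 + n2 + n3 + 1) := Nat.le_mul_of_pos_left _ hD
      _ ≤ F0.index * (D * (n1 + n2 + n3 + 1)) := Nat.le_mul_of_pos_left _ (Nat.pos_of_ne_zero hs0)
      _ ≤ _ := Nat.le_mul_of_pos_left _ hκ
  have hDn : (D : ℤ) ∣ n := by
    have : D ∣ n := by
      rw [hn, hM]
      exact Dvd.dvd.mul_left (Dvd.dvd.mul_left (dvd_mul_right _ _) _) _
    exact_mod_cast this
  obtain ⟨y, ⟨j, hj, hj0⟩, hy, hyA⟩ := exists_root hL hPs (c * x ^ n) (hn3 n (by omega))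
  have hφW : φ (C0 * g0 * Y ^ M) = c * x ^ n := by
    rw [map_mul, ← hc, map_pow, hY, ← pow_mul, hn]
  refine ⟨C0 * g0 * Y ^ M, y, ?_, hyA, ?_, ?_⟩
  · have h1 : Y ^ M ∈ F0 := by
      rw [hM, pow_mul]
      exact F0.pow_mem (Subgroup.pow_index_mem F0 Y) _
    rw [show C0⁻¹ * (C0 * g0 * Y ^ M) = g0 * Y ^ M by group]
    exact F0.mul_mem hg0F h1
  · rw [hφW, ← hj]
    rcases hn1 n (by omega) y j hj with h1 | h1
    · left; rw [h1, zpow_one]
    · right; rw [h1, zpow_neg, zpow_one]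
  · intro i u t ht hut
    -- `p` has a finite cycle for `gam`
    obtain ⟨p, hp⟩ : ∃ p : G ⧸ L i, p = ((u⁻¹ : G) : G ⧸ L i) := ⟨_, rfl⟩
    have hpg : p ∈ Pt (L i) (c * x ^ n) := by
      refine ⟨t, ht, ?_⟩
      have h1 : y ^ t • p = p := by
        rw [hp, coe_fix, inv_inv]
        exact hut
      have h2 := fix_zpow h1 j
      rwa [← zpow_mul, mul_comm, zpow_mul, hj] at h2
    -- translated points
    have hcinv : ∀ q ∈ Pt (L i) (c * x ^ n), c⁻¹ • q ∈ Pt (L i) x := by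
      intro q hq
      obtain ⟨m, hm, hmq⟩ := hq
      induction q using QuotientGroup.induction_on with
      | H h =>
        rw [coe_fix] at hmq
        obtain ⟨s, hs, hsL⟩ := hn2' i n (by have := hn2le i; omega) h m hm hmq
        refine ⟨s, hs, ?_⟩
        have h1 : c⁻¹ • ((h : G) : G ⧸ L i) = ((c⁻¹ * h : G) : G ⧸ L i) := rfl
        rw [h1, coe_fix]
        rwa [show (c⁻¹ * h)⁻¹ * x ^ s * (c⁻¹ * h) = h⁻¹ * (c * x ^ s * c⁻¹) * h by group]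
    have hself : ∀ q ∈ Pt (L i) (c * x ^ n), c⁻¹ • q ∈ Pt (L i) (c * x ^ n) := by
      intro q hq
      have h1 := hDx i _ (hcinv q hq)
      obtain ⟨e, he⟩ := hDn
      have h2 : x ^ (-(n : ℤ)) • c⁻¹ • q = c⁻¹ • q := by
        rw [he, ← mul_neg, zpow_mul]
        exact fix_zpow h1 _
      have h3 : (c * x ^ n)⁻¹ • q = c⁻¹ • q := by
        rw [← h2, smul_smul, mul_inv_rev, zpow_neg, zpow_natCast]
      obtain ⟨m, hm, hmq⟩ := hq
      refine ⟨m, hm, ?_⟩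
      rw [← h3, smul_smul]
      have h4 : (c * x ^ n) ^ m * (c * x ^ n)⁻¹ = (c * x ^ n)⁻¹ * (c * x ^ n) ^ m := by
        rw [← zpow_sub_one, ← zpow_neg_one, ← zpow_add]; congr 1; ring
      rw [h4, ← smul_smul, hmq]
    have hfin : (Pt (L i) (c * x ^ n)).Finite := Pt_finite (hk i) (hn3 n (by omega))
    have hbij := (hfin.injOn_iff_bijOn_of_mapsTo (f := fun q => c⁻¹ • q) hself).1
      (MulAction.injective c⁻¹).injOn
    have hsub : Pt (L i) (c * x ^ n) ⊆ Pt (L i) x := by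
      intro q hq
      obtain ⟨q', hq', rfl⟩ := hbij.surjOn hq
      exact hcinv q' hq'
    have hset : {q : G ⧸ L i | ∃ w : F, q = ((φ w * u⁻¹ : G) : G ⧸ L i)} =
        {q | ∃ w : F, q = φ w • p} := by
      rw [hp]; rfl
    rw [hset]
    by_contra hinfp
    have hp1 : p ∈ P1 i := ⟨hsub hpg, hinfp⟩
    have hp2 : c⁻¹ • p ∈ P1 i := by
      refine ⟨hcinv p hpg, ?_⟩
      have h1 : {q : G ⧸ L i | ∃ w : F, q = φ w • c⁻¹ • p} = {q | ∃ w : F, q = φ w • p} := by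
        ext q
        constructor
        · rintro ⟨w, rfl⟩
          exact ⟨w * (C0 * g0)⁻¹, by rw [map_mul, map_inv, ← hc, smul_smul]⟩
        · rintro ⟨w, rfl⟩
          exact ⟨w * (C0 * g0), by rw [map_mul, ← hc, smul_smul, mul_inv_cancel_right]⟩
      rw [h1]
      exact hinfp
    apply hc1 i _ hp2
    rwa [smul_inv_smul]

/-- a periodic word does not give an element conjugate into a subgroup `L2` for which `x` is free -/
theorem no_mix2 {G : Type*} [Group G] {H : Hyp G} {x : G} (A : Ax H x) {k : ℕ} (L L2 : Subgroup G)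
    (c : G) (a b : Fin k → G) (hch : WdChain A L c a b) (hpig : PigL A.toPAx L2)
    (hfree : Free L2 x) : ∃ n0 : ℕ, ∀ n ≥ n0, ∀ (σ : G) (R : ℕ) (P : ℕ → G)
      (w : ℕ → Bool × Fin k) (l : ℕ → G), 0 < R →
      (∀ r, Wd L x c n a b r P w l) → (∀ i, P (i + R) = σ * P i) → (∀ i, w (i + R) = w i) →
      ∀ h : G, h⁻¹ * σ * h ∉ L2 := by
  obtain ⟨B, hB0, hB⟩ := hch
  obtain ⟨θ, hθ⟩ := hpig
  refine ⟨(2 * B + 4 * A.th + 4 * A.c + θ).toNat + 1, fun n hn σ R P w l hR hW hP hw h hmem => ?_⟩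
  have hn' : 2 * B + 4 * A.th + 4 * A.c + θ < (n : ℤ) := by omega
  have hth := th_pos A
  have hPm : ∀ m : ℕ, P (m * R) = σ ^ m * P 0 := by
    intro m
    induction m with
    | zero => simp
    | succ m ih => rw [Nat.succ_mul, hP, ih, pow_succ', mul_assoc]
  obtain ⟨K, hK⟩ := both A (P 0) h
  obtain ⟨m, hm⟩ : ∃ m, m = 2 * K + 1 := ⟨_, rfl⟩
  have hmR : 0 < m * R := by rw [hm]; positivity
  have hc := hB n (m * R) P w l hmR (hW _) (P 0) (P (m * R)) (by simp)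
    (by simp)
  have h1 : h⁻¹ * σ ^ m * h ∈ L2 := by
    have e1 : h⁻¹ * σ ^ m * h = (h⁻¹ * σ * h) ^ m := by
      have := conj_pow (i := m) (a := h⁻¹) (b := σ)
      rw [inv_inv] at this
      exact this.symm
    rw [e1]
    exact L2.pow_mem hmem m
  have hbd : ∀ u : G, |A.s u h (σ ^ m * h)| ≤ θ := by
    intro u
    by_contra hcon
    push Not at hcon
    have h2 := A.s_mul h⁻¹ u h (σ ^ m * h)
    have e3 : h⁻¹ * (σ ^ m * h) = h⁻¹ * σ ^ m * h := (mul_assoc _ _ _).symm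
    rw [inv_mul_cancel, e3] at h2
    rw [← h2] at hcon
    obtain ⟨t, ht, htL⟩ := hθ (h⁻¹ * u) 1 L2.one_mem _ h1 hcon
    exact hfree _ t ht htL
  obtain ⟨i, hi, hi1, hi2⟩ := hK (Finset.range (3 * (m * R))) (we x c n a b P w) (σ ^ m)
    (fun i hi j hj hij =>
      hc.inj' (by omega) i j hij (Finset.mem_range.1 hi) (Finset.mem_range.1 hj))
    (by
      rw [Finset.card_range, hm]
      have : 2 * K + 1 ≤ (2 * K + 1) * R := Nat.le_mul_of_pos_right _ hR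
      omega)
  have hv := hc.val_ge (by omega) i (Finset.mem_range.1 hi)
  rw [hPm] at hv
  set e := we x c n a b P w i with he
  have h3 := abs_tri A e (P 0) h (σ ^ m * P 0)
  have h4 := abs_tri A e h (σ ^ m * h) (σ ^ m * P 0)
  rw [abs_s_symm A e (σ ^ m * P 0) (σ ^ m * h)] at h4
  have h5 := hbd e
  omega

end Pool.Agent.TH59.TD
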