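import Pool.Agent.TH714.TD.Asm2
import Pool.Agent.TH59.TD.Core

/-!
# One stage with a family of subgroups (helper59)
-/

set_option autoImplicit false

namespace Pool.Agent.TH59.TD

open Pool.Agent.TH64 Pool.Agent.TH63.RD Pool.Agent.TH65.B Pool.Agent.TH714.TD
open Pool.Agent.TH558.BL (exists_prime)

/-- no element of infinite order is conjugate into both subgroups -/
def Ind {Q : Type*} [Group Q] (L L' : Subgroup Q) : Prop :=
  ∀ g : Q, ¬ IsOfFinOrder g → ∀ h h' : Q, h⁻¹ * g * h ∈ L → h'⁻¹ * g * h' ∉ L'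

theorem Ind.symm {Q : Type*} [Group Q] {L L' : Subgroup Q} (h : Ind L L') : Ind L' L :=
  fun g hg p p' h1 h2 => h g hg p' p h2 h1

theorem conj_bot {Q : Type*} [Group Q] {g h : Q} (hg : h⁻¹ * g * h ∈ (⊥ : Subgroup Q)) : g = 1 := by
  have h1 := Subgroup.mem_bot.1 hg
  have h2 : g = h * (h⁻¹ * g * h) * h⁻¹ := by group
  rw [h2, h1]
  group

theorem ind_bot {Q : Type*} [Group Q] (L : Subgroup Q) : Ind L ⊥ := by
  intro g hg h h' _ h2
  apply hg
  rw [conj_bot h2]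
  exact IsOfFinOrder.one

/-- the properties of one stage, for the family of subgroups -/
structure Fam {Q : Type} [Group Q] (H : Hyp Q) (L : ℕ → Subgroup Q) : Prop where
  lv : ∀ i, Lv (i + 2) H (L i)
  fin : ∃ n, ∀ i ≥ n, L i = ⊥
  ind : ∀ i j, i ≠ j → Ind (L i) (L j)

theorem lv_bot {k k' : ℕ} {Q : Type} [Group Q] {H : Hyp Q} {L : Subgroup Q} (h : Lv k H L) :
    Lv k' H (⊥ : Subgroup Q) := by
  refine ⟨h.lev, ⟨0, ?_⟩, ?_, h.nc, ?_⟩
  · intro a ha b hb p hp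
    have ha' : a = 1 := Subgroup.mem_bot.1 ha
    have hb' : b = 1 := Subgroup.mem_bot.1 hb
    subst ha' hb'
    rw [H.d_self] at hp
    refine ⟨1, Subgroup.one_mem _, ?_⟩
    have h1 := H.d_comm p 1
    omega
  · intro g hg h hmem
    exfalso
    apply hg
    rw [conj_bot (hmem 0)]
    exact IsOfFinOrder.one
  · have h1 : Infinite (Q ⧸ L) := h.inf
    have h2 : Infinite Q := Infinite.of_surjective (fun g : Q => (g : Q ⧸ L))
      QuotientGroup.mk_surjective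
    refine ⟨fun i => Infinite.natEmbedding Q i, ?_⟩
    intro i j hij hmem
    have h5 := Subgroup.mem_bot.1 hmem
    rw [inv_mul_eq_one] at h5
    exact hij (Fin.ext ((Infinite.natEmbedding Q).injective h5))

theorem ax_inf {Q : Type} [Group Q] {H : Hyp Q} {x : Q} (A : Ax H x) (t : ℤ) (ht : t ≠ 0) :
    x ^ t ≠ 1 := by
  intro h
  apply ht
  have h1 := A.κ_zpow t
  rw [h, A.κ_one] at h1
  exact h1.symm

theorem free_bot {Q : Type} [Group Q] {H : Hyp Q} {x : Q} (A : Ax H x) : Free (⊥ : Subgroup Q) x := by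
  intro u t ht hmem
  apply ax_inf A t ht
  have h1 := Subgroup.mem_bot.1 hmem
  have h2 : x ^ t = u⁻¹ * (u * x ^ t * u⁻¹) * u := by group
  rw [h2, h1]
  group

/-- independence in the quotient -/
theorem quo_ind {G : Type} [Group G] {H : Hyp G} {x : G} (A : Ax H x) (L L' : Subgroup G)
    (hkey : KeyK A L) (hkey' : KeyK A L') (hind : Ind L L') : ∃ N0 : ℕ, ∀ N ≥ N0,
    ∀ (M : Subgroup G) [M.Normal], Fill A N M →
      Ind (L.map (QuotientGroup.mk' M)) (L'.map (QuotientGroup.mk' M)) := by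
  obtain ⟨N0, hN0⟩ := hkey
  obtain ⟨N1, hN1⟩ := hkey'
  refine ⟨N0 + N1, fun N hN M _ hF => ?_⟩
  intro σ hσ hb hb' hfix hfix'
  obtain ⟨y, rfl⟩ := QuotientGroup.mk'_surjective M σ
  obtain ⟨q, rfl⟩ := QuotientGroup.mk'_surjective M hb
  obtain ⟨q', rfl⟩ := QuotientGroup.mk'_surjective M hb'
  obtain ⟨n0, hn0, g0, hmin⟩ := exists_min_conj H M y
  set z := g0⁻¹ * (y * n0) * g0 with hz
  have hn1 : (n0 : G ⧸ M) = 1 := (QuotientGroup.eq_one_iff n0).2 hn0
  have hzM : (z : G ⧸ M) = (g0 : G ⧸ M)⁻¹ * (y : G ⧸ M) * g0 := by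
    rw [hz]
    simp only [QuotientGroup.mk_mul, QuotientGroup.mk_inv, hn1, mul_one]
  have hzf : ¬ IsOfFinOrder (z : G ⧸ M) := by
    rw [hzM]
    intro h
    apply hσ
    obtain ⟨n, hn, h1⟩ := isOfFinOrder_iff_pow_eq_one.1 h
    refine isOfFinOrder_iff_pow_eq_one.2 ⟨n, hn, ?_⟩
    have h2 : ((g0 : G ⧸ M)⁻¹ * (y : G ⧸ M) * g0) ^ n
        = (g0 : G ⧸ M)⁻¹ * (y : G ⧸ M) ^ n * g0 := by
      have := conj_pow (i := n) (a := (g0 : G ⧸ M)⁻¹) (b := (y : G ⧸ M))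
      simpa using this
    rw [h2] at h1
    change (y : G ⧸ M) ^ n = 1
    have h3 : (y : G ⧸ M) ^ n = (g0 : G ⧸ M) * ((g0 : G ⧸ M)⁻¹ * (y : G ⧸ M) ^ n * g0) *
        (g0 : G ⧸ M)⁻¹ := by group
    rw [h3, h1]
    group
  have h1 : ∀ (K : Subgroup G) (q : G), (QuotientGroup.mk' M q)⁻¹ * QuotientGroup.mk' M y *
      QuotientGroup.mk' M q ∈ K.map (QuotientGroup.mk' M) →
      ∃ l ∈ K, l⁻¹ * ((g0⁻¹ * q)⁻¹ * z * (g0⁻¹ * q)) ∈ M := by
    intro K q h2
    rw [Subgroup.mem_map] at h2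
    obtain ⟨l, hlL, h3⟩ := h2
    refine ⟨l, hlL, ?_⟩
    rw [← QuotientGroup.eq_one_iff]
    have h4 : (l : G ⧸ M) = (q : G ⧸ M)⁻¹ * (y : G ⧸ M) * (q : G ⧸ M) := h3
    simp only [QuotientGroup.mk_mul, QuotientGroup.mk_inv, h4, hzM]
    group
  obtain ⟨m, hm, l, hl, r, hr, hmem⟩ := hN0 N (by omega) M hF z hmin hzf _ (h1 L q hfix)
  obtain ⟨m', hm', l', hl', r', hr', hmem'⟩ := hN1 N (by omega) M hF z hmin hzf _ (h1 L' q' hfix')
  have hzz : ¬ IsOfFinOrder (z ^ (r * r')) := by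
    intro h
    apply hzf
    have h5 : IsOfFinOrder z := (isOfFinOrder_pow.1 h).resolve_right (by
      have : 0 < r * r' := Nat.mul_pos hr hr'
      omega)
    exact MonoidHom.isOfFinOrder (QuotientGroup.mk' M) h5
  have hcp : ∀ (p w : G) (c : ℕ), p⁻¹ * w ^ c * p = (p⁻¹ * w * p) ^ c := by
    intro p w c
    have := conj_pow (i := c) (a := p⁻¹) (b := w)
    rw [inv_inv] at this
    exact this.symm
  refine hind (z ^ (r * r')) hzz (m * (g0⁻¹ * q) * l) (m' * (g0⁻¹ * q') * l') ?_ ?_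
  · rw [pow_mul, hcp]
    exact L.pow_mem hmem _
  · rw [mul_comm r r', pow_mul, hcp]
    exact L'.pow_mem hmem' _

theorem Fam.inf {Q : Type} [Group Q] {H : Hyp Q} {L : ℕ → Subgroup Q} (h : Fam H L) :
    Infinite Q := by
  have h1 : Infinite (Q ⧸ L 0) := (h.lv 0).inf
  exact Infinite.of_surjective (fun g : Q => (g : Q ⧸ L 0)) QuotientGroup.mk_surjective

/-- the quotient step -/
theorem quo_step {Q : Type} [Group Q] {H : Hyp Q} {L : ℕ → Subgroup Q} (h : Fam H L)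
    {x : Q} (A : Ax H x) (hfix : ∀ i, Fixes (L i) x) (Z : Set (ℕ × Q)) (hZ : Z.Finite)
    (hZL : ∀ z ∈ Z, z.2 ∉ L z.1)
    (B : ℕ) : ∃ N : ℕ, N.Prime ∧ B ≤ N ∧ ∃ (M : Subgroup Q) (_ : M.Normal) (H' : Hyp (Q ⧸ M)),
      x ^ N ∈ M ∧ Fam H' (fun i => (L i).map (QuotientGroup.mk' M)) ∧
      (∀ z ∈ Z, (z.2 : Q ⧸ M) ∉ (L z.1).map (QuotientGroup.mk' M)) := by
  classical
  obtain ⟨E, Ps, hE, hL, hPs, hsep⟩ := (h.lv 0).lev
  obtain ⟨ca, cb, hab⟩ := (h.lv 0).nc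
  obtain ⟨n0, hn0⟩ := h.fin
  obtain ⟨n1, hn1⟩ := (hZ.image Prod.fst).bddAbove
  obtain ⟨n, hn⟩ : ∃ n : ℕ, n = n0 + n1 + 1 := ⟨_, rfl⟩
  have hnZ : ∀ z ∈ Z, z.1 < n := by
    intro z hz
    have h1 := hn1 ⟨z, hz, rfl⟩
    omega
  have hq := fun i => (h.lv i).qc
  choose k0 hQ using hq
  have hmany := fun i => (h.lv i).many
  choose hm hhm using hmany
  have hpig := fun i => pigL A.toPAx (L i) (k0 i) (hQ i)
  have hcl := fun i => closing A (L i) (hfix i) (hpig i)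
  have hkey := fun i => keyK A (L i) (hcl i) (goodz A) (corner A)
  have e1 := fun i => quo_QC A (L i) (k0 i) (hQ i) (hcl i)
  choose N1 h1 using e1
  have e2 := fun i => quo_out A (L i) (hcl i)
    ((fun z : ℕ × Q => z.2) '' {z ∈ Z | z.1 = i} ∪
      Set.range (fun p : {p : Fin (i + 2 + 1) × Fin (i + 2 + 1) // p.1 ≠ p.2} =>
      (hm i p.1.1)⁻¹ * hm i p.1.2)) (((hZ.subset (fun z hz => hz.1)).image _).union
        (Set.finite_range _)) (by
      rintro z (⟨z, ⟨hz, rfl⟩, rfl⟩ | ⟨p, rfl⟩)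
      · exact hZL z hz
      · exact hhm i _ _ p.2)
  choose N2 h2 using e2
  have e3 := fun i => quo_few A (L i) (hkey i) (i + 2) (h.lv i).few
  choose N3 h3 using e3
  have e4 : ∀ i j, ∃ N0 : ℕ, i ≠ j → ∀ N ≥ N0, ∀ (M : Subgroup Q) [M.Normal], Fill A N M →
      Ind ((L i).map (QuotientGroup.mk' M)) ((L j).map (QuotientGroup.mk' M)) := by
    intro i j
    by_cases hij : i = j
    · exact ⟨0, fun hne => absurd hij hne⟩
    · obtain ⟨N0, hN0⟩ := quo_ind A (L i) (L j) (hkey i) (hkey j) (h.ind i j hij)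
      exact ⟨N0, fun _ => hN0⟩
  choose N4 h4 using e4
  obtain ⟨N0, hN0⟩ := stepP hE (lt_add_one E) hPs hL A {ca * cb * ca⁻¹ * cb⁻¹}
    (Set.finite_singleton _)
  obtain ⟨S, hS⟩ : ∃ S : ℕ, S = ∑ i ∈ Finset.range n, (N1 i + N2 i + N3 i +
    ∑ j ∈ Finset.range n, N4 i j) := ⟨_, rfl⟩
  have hSi : ∀ i < n, N1 i + N2 i + N3 i + ∑ j ∈ Finset.range n, N4 i j ≤ S := by
    intro i hi
    rw [hS]
    exact Finset.single_le_sum (f := fun i => N1 i + N2 i + N3 i +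
      ∑ j ∈ Finset.range n, N4 i j) (fun _ _ => Nat.zero_le _) (Finset.mem_range.2 hi)
  have hSij : ∀ i < n, ∀ j < n, N4 i j ≤ S := by
    intro i hi j hj
    have h5 := hSi i hi
    have h6 := Finset.single_le_sum (f := fun j => N4 i j) (fun _ _ => Nat.zero_le _)
      (Finset.mem_range.2 hj)
    have h7 : N4 i j ≤ ∑ j ∈ Finset.range n, N4 i j := h6
    omega
  obtain ⟨N, hNp, hNB, hNodd, hNs⟩ := exists_prime Ps hPs (N0 + S + B +
    (40 * A.th + 1) + 2)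
  obtain ⟨⟨H', hH', hL'⟩, hinj, hord⟩ := hN0 N (by omega) hNp
  have hF := fill_normalClosure A N (by omega)
  have hout : ∀ i < n, ∀ z : Q, (z ∈ ((fun z : ℕ × Q => z.2) '' {z ∈ Z | z.1 = i} ∪
      Set.range (fun p : {p : Fin (i + 2 + 1) × Fin (i + 2 + 1) // p.1 ≠ p.2} =>
      (hm i p.1.1)⁻¹ * hm i p.1.2))) →
      (z : Q ⧸ Subgroup.normalClosure ({x ^ N} : Set Q)) ∉
        (L i).map (QuotientGroup.mk' (Subgroup.normalClosure ({x ^ N} : Set Q))) := by
    intro i hi z hz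
    exact h2 i N (by have := hSi i hi; omega) _ hF z hz
  have hlv : ∀ i < n, Lv (i + 2) H'
      ((L i).map (QuotientGroup.mk' (Subgroup.normalClosure ({x ^ N} : Set Q)))) := by
    intro i hi
    have hSi' := hSi i hi
    refine ⟨⟨E + 1, insert N Ps, by linarith, hL', ?_, ?_⟩, ⟨k0 i, ?_⟩, ?_, ?_, ?_⟩
    · intro p hp
      rcases Finset.mem_insert.1 hp with rfl | hp
      · exact ⟨hNp, hNodd⟩
      · exact hPs p hp
    · intro p hp q hq
      have hlt : ∀ p q : ℕ, p.Prime → q.Prime → q ≤ p → ¬ p ∣ q - 1 := by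
        intro p q hp hq hqp hd
        have h1 := Nat.le_of_dvd (by have := hq.two_le; omega) hd
        have h2 := hq.two_le
        omega
      rcases Finset.mem_insert.1 hp with hp1 | hp1
      · rcases Finset.mem_insert.1 hq with hq1 | hq1
        · rw [hp1, hq1]
          exact hlt _ _ hNp hNp le_rfl
        · rw [hp1]
          exact hlt _ _ hNp (hPs q hq1).1 (hNs q hq1).1.le
      · rcases Finset.mem_insert.1 hq with hq1 | hq1
        · rw [hq1]
          exact (hNs p hp1).2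
        · exact hsep p hp1 q hq1
    · exact h1 i N (by omega) _ hF H' hH'
    · exact h3 i N (by omega) _ hF
    · refine ⟨(ca : Q ⧸ _), (cb : Q ⧸ _), ?_⟩
      intro hcom
      have h5 := hinj _ rfl (by
        rw [← QuotientGroup.eq_one_iff, QuotientGroup.mk_mul, QuotientGroup.mk_mul,
          QuotientGroup.mk_mul, hcom, QuotientGroup.mk_inv, QuotientGroup.mk_inv]
        group)
      apply hab
      rw [mul_inv_eq_one, mul_inv_eq_iff_eq_mul] at h5
      exact h5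
    · refine ⟨fun j => (hm i j : Q ⧸ _), fun j j' hij => ?_⟩
      exact hout i hi _ (Or.inr ⟨⟨(j, j'), hij⟩, rfl⟩)
  have hbot : ∀ i, n ≤ i → L i = ⊥ := fun i hi => hn0 i (by omega)
  refine ⟨N, hNp, by omega, Subgroup.normalClosure ({x ^ N} : Set Q),
    Subgroup.normalClosure_normal, H', Subgroup.subset_normalClosure rfl, ⟨?_, ⟨n, ?_⟩, ?_⟩, ?_⟩
  · intro i
    rcases lt_or_ge i n with hi | hi
    · exact hlv i hi
    · show Lv (i + 2) H' ((L i).map _)
      rw [hbot i hi, Subgroup.map_bot]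
      exact lv_bot (hlv 0 (by omega))
  · intro i hi
    show (L i).map _ = ⊥
    rw [hbot i hi, Subgroup.map_bot]
  · intro i j hij
    show Ind ((L i).map _) ((L j).map _)
    rcases lt_or_ge i n with hi | hi
    · rcases lt_or_ge j n with hj | hj
      · exact h4 i j hij N (by have := hSij i hi j hj; omega) _ hF
      · rw [hbot j hj, Subgroup.map_bot]
        exact ind_bot _
    · rw [hbot i hi, Subgroup.map_bot]
      exact (ind_bot _).symm
  · intro z hz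
    exact hout z.1 (hnZ z hz) z.2 (Or.inl ⟨z, ⟨hz, rfl⟩, rfl⟩)

/-- the core statement for one stage -/
theorem core' {Q : Type} [Group Q] {H : Hyp Q} {L : ℕ → Subgroup Q} (h : Fam H L)
    {F : Type} [Group F] (φ : F →* Q) (hφ : ∃ u v : F, φ u * φ v ≠ φ v * φ u)
    (F0 : Subgroup F) [F0.Normal] [F0.FiniteIndex] (C0 : F) :
    ∃ (W : F) (y : Q), C0⁻¹ * W ∈ F0 ∧ Nonempty (Ax H y) ∧ (φ W = y ∨ φ W = y⁻¹) ∧
      ∀ i, ∀ u : Q, ∀ t : ℤ, t ≠ 0 → u * y ^ t * u⁻¹ ∈ L i →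
        {p : Q ⧸ L i | ∃ w : F, p = ((φ w * u⁻¹ : Q) : Q ⧸ L i)}.Finite := by
  obtain ⟨E, Ps, hE, hL, hPs, hsep⟩ := (h.lv 0).lev
  obtain ⟨n, hn⟩ := h.fin
  have hq := fun i => (h.lv i).qc
  choose k0 hQ using hq
  obtain ⟨W, y, hW, ⟨A⟩, hWy, hy⟩ := core hL hPs hsep (fun i : Fin n => L i)
    (fun i : Fin n => (i : ℕ) + 2) (fun i => (h.lv i).few) (fun x A => gam_root A)
    (fun i x A => gam_fix A (L i) (pigL A.toPAx (L i) (k0 i) (hQ i)))
    (fun x A c hc => gam_inf A c hc)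
    (fun A B hA hB hAB => neumann A B hA hB hAB) φ hφ F0 C0
  refine ⟨W, y, hW, ⟨A⟩, hWy, ?_⟩
  intro i u t ht hmem
  rcases lt_or_ge i n with hi | hi
  · exact hy ⟨i, hi⟩ u t ht hmem
  · exfalso
    rw [hn i hi] at hmem
    exact free_bot A u t ht hmem

/-- an element all of whose cycles are infinite -/
theorem top_free {Q : Type} [Group Q] {H : Hyp Q} {L : ℕ → Subgroup Q} (h : Fam H L) :
    ∃ y : Q, Nonempty (Ax H y) ∧ ∀ i, Free (L i) y := by
  obtain ⟨ca, cb, hab⟩ := (h.lv 0).nc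
  obtain ⟨W, y, -, hA, -, hy⟩ := core' h (MonoidHom.id Q) ⟨ca, cb, hab⟩ ⊤ 1
  refine ⟨y, hA, ?_⟩
  intro i u t ht hmem
  have hfin := hy i u t ht hmem
  have hinf := (h.lv i).inf
  apply Set.infinite_univ (α := Q ⧸ L i)
  refine hfin.subset ?_
  intro p _
  obtain ⟨g, rfl⟩ := QuotientGroup.mk_surjective p
  exact ⟨g * u, by simp⟩

/-- an element with `Sep` -/
theorem exists_sep {Q : Type} [Group Q] {H : Hyp Q} {L : ℕ → Subgroup Q} (h : Fam H L) (e : ℕ)
    {m : ℕ} (a b : Fin m → Q) (haa : ∀ i j, i ≠ j → (a i)⁻¹ * a j ∉ L e)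
    (hbb : ∀ i j, i ≠ j → (b i)⁻¹ * b j ∉ L e) (hab : ∀ i j, (a i)⁻¹ * b j ∉ L e) :
    ∃ y : Q, Nonempty (Ax H y) ∧ Sep (L e) y a b ∧ ∀ i, Free (L i) y := by
  obtain ⟨n0, hn0⟩ := h.fin
  have hq := fun i => (h.lv i).qc
  choose k0 hQ using hq
  obtain ⟨x, ⟨A⟩, hfree⟩ := top_free h
  obtain ⟨c, hc⟩ := not_all (h.lv 0).nc x
  have hpig := fun i => pigL A.toPAx (L i) (k0 i) (hQ i)
  obtain ⟨n1, h1⟩ := gam_root A c hc
  have e2 := fun i => gam_fix A (L i) (hpig i) c hc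
  choose n2' h2' using e2
  obtain ⟨n2, hn2⟩ : ∃ n2 : ℕ, n2 = ∑ i ∈ Finset.range n0, n2' i := ⟨_, rfl⟩
  have hn2i : ∀ i < n0, n2' i ≤ n2 := by
    intro i hi
    rw [hn2]
    exact Finset.single_le_sum (f := n2') (fun _ _ => Nat.zero_le _) (Finset.mem_range.2 hi)
  obtain ⟨n3, h3⟩ := gam_sep A c hc (L e) (hpig e) (hfree e) (Set.range a ∪ Set.range b)
    ((Set.finite_range a).union (Set.finite_range b))
  obtain ⟨n4, h4⟩ := gam_inf A c hc
  obtain ⟨n, hn⟩ : ∃ n, n = n1 + n2 + n3 + n4 := ⟨_, rfl⟩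
  have h4' := h4 n (by omega)
  obtain ⟨y, ⟨j, hj, hj0⟩, -, ⟨Ay⟩⟩ := exists_root' (h.lv 0) _ h4'
  have hj1 := h1 n (by omega) y j hj
  -- powers of `y` are powers of `c x ^ n`
  have hpow : ∀ t : ℤ, ∃ t' : ℤ, (t ≠ 0 → t' ≠ 0) ∧ y ^ t = (c * x ^ n) ^ t' := by
    intro t
    rcases hj1 with h5 | h5
    · refine ⟨t, id, ?_⟩
      rw [← hj, h5, zpow_one]
    · refine ⟨-t, fun h => neg_ne_zero.2 h, ?_⟩
      rw [← hj, h5, ← zpow_mul]
      congr 1
      ring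
  have hallfree : ∀ i, Free (L i) y := by
    intro i
    rcases lt_or_ge i n0 with hi | hi
    · intro u t ht hmem
      obtain ⟨t', ht', he⟩ := hpow t
      rw [he] at hmem
      obtain ⟨s, hs, hs2⟩ := h2' i n (by have := hn2i i hi; omega) u⁻¹ t' (ht' ht)
        (by rwa [inv_inv])
      refine hfree i (u * c) s hs ?_
      rw [inv_inv] at hs2
      rwa [show u * c * x ^ s * (u * c)⁻¹ = u * (c * x ^ s * c⁻¹) * u⁻¹ by group]
    · rw [hn0 i hi]
      exact free_bot Ay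
  refine ⟨y, ⟨Ay⟩, ⟨hallfree e, ?_, ?_, ?_, ?_⟩, hallfree⟩
  · intro i j t hmem
    by_cases ht : t = 0
    · refine ⟨ht, ?_⟩
      by_contra hij
      apply haa i j hij
      rwa [ht, zpow_zero, mul_one] at hmem
    · exfalso
      obtain ⟨t', ht', he⟩ := hpow t
      rw [he] at hmem
      exact h3 n (by omega) (a j) (Or.inl ⟨j, rfl⟩) (a i) (Or.inl ⟨i, rfl⟩) t' (ht' ht) hmem
  · intro i j t hmem
    by_cases ht : t = 0
    · refine ⟨ht, ?_⟩
      by_contra hij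
      apply hbb i j hij
      rwa [ht, zpow_zero, mul_one] at hmem
    · exfalso
      obtain ⟨t', ht', he⟩ := hpow t
      rw [he] at hmem
      exact h3 n (by omega) (b j) (Or.inr ⟨j, rfl⟩) (b i) (Or.inr ⟨i, rfl⟩) t' (ht' ht) hmem
  · intro i j t hmem
    by_cases ht : t = 0
    · apply hab i j
      rwa [ht, zpow_zero, mul_one] at hmem
    · obtain ⟨t', ht', he⟩ := hpow t
      rw [he] at hmem
      exact h3 n (by omega) (b j) (Or.inr ⟨j, rfl⟩) (a i) (Or.inl ⟨i, rfl⟩) t' (ht' ht) hmem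
  · intro i j t hmem
    by_cases ht : t = 0
    · apply hab j i
      rw [ht, zpow_zero, mul_one] at hmem
      have := (L e).inv_mem hmem
      rwa [mul_inv_rev, inv_inv] at this
    · obtain ⟨t', ht', he⟩ := hpow t
      rw [he] at hmem
      exact h3 n (by omega) (a j) (Or.inl ⟨j, rfl⟩) (b i) (Or.inr ⟨i, rfl⟩) t' (ht' ht) hmem

/-- independence of the extension -/
theorem lx_ind {k : ℕ} (hk : 0 < k) {G : Type*} [Group G] {H : Hyp G} {x : G} (A : Ax H x)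
    (L L2 : Subgroup G) (c : G) (a b : Fin k → G) (hind : Ind L L2) (hch : WdChain A L c a b)
    (hpig2 : PigL A.toPAx L2) (hfree2 : Free L2 x) :
    ∃ n0 : ℕ, ∀ n ≥ n0, Ind (Lx L x c n a b) L2 := by
  obtain ⟨n0, h0⟩ := no_mix2 A L L2 c a b hch hpig2 hfree2
  refine ⟨n0, ?_⟩
  intro n hn σ hσ h h' hmem hmem2
  by_cases hno : ∀ g ∈ Lx L x c n a b, (h * g)⁻¹ * σ * (h * g) ∉ L
  · obtain ⟨R, P, w, l, hR, hP0, hw, hP, hwp⟩ := exists_per hk L c a b n σ h hmem hno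
    exact h0 n hn σ R P w l hR hw hP hwp h' hmem2
  · push Not at hno
    obtain ⟨g, hg, hgL⟩ := hno
    exact hind σ hσ (h * g) h' hgL hmem2

/-- the extension step -/
theorem add_step {Q : Type} [Group Q] {H : Hyp Q} {L : ℕ → Subgroup Q}
    (h : Fam H L) (e : ℕ) (a b : Fin (e + 2) → Q) (haa : ∀ i j, i ≠ j → (a i)⁻¹ * a j ∉ L e)
    (hbb : ∀ i j, i ≠ j → (b i)⁻¹ * b j ∉ L e) (hab : ∀ i j, (a i)⁻¹ * b j ∉ L e)
    (Z : Set Q) (hZ : Z.Finite) (hZL : ∀ z ∈ Z, z ∉ L e) :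
    ∃ L' : Subgroup Q, Fam H (Function.update L e L') ∧ L e ≤ L' ∧ (∀ z ∈ Z, z ∉ L') ∧
      ∃ g : Q, ∀ j, (b j)⁻¹ * g * a j ∈ L' := by
  classical
  obtain ⟨n0, hn0⟩ := h.fin
  have hq := fun i => (h.lv i).qc
  choose k0 hQ using hq
  obtain ⟨hm, hhm⟩ := (h.lv e).many
  obtain ⟨x, ⟨A⟩, hS, hfree⟩ := exists_sep h e a b haa hbb hab
  obtain ⟨c, hc⟩ := not_all (h.lv e).nc x
  have hpig := fun i => pigL A.toPAx (L i) (k0 i) (hQ i)
  have hch : WdChain A (L e) c a b := wd_chain A (L e) c a b (hpig e) hc hS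
  have hwd : ExWd x (L e) c a b := fun n g hg => exists_wd (by omega) (L e) c a b n g hg
  obtain ⟨n1, h1⟩ := lx_out A (L e) c a b hch hwd
    (Z ∪ Set.range (fun p : {p : Fin (e + 2 + 1) × Fin (e + 2 + 1) // p.1 ≠ p.2} =>
      (hm p.1.1)⁻¹ * hm p.1.2)) (hZ.union (Set.finite_range _)) (by
      rintro z (hz | ⟨p, rfl⟩)
      · exact hZL z hz
      · exact hhm _ _ p.2)
  obtain ⟨n2, h2⟩ := lx_QC A (L e) (k0 e) (hQ e) c a b hch hwd
  obtain ⟨n3, h3⟩ := lx_few (by omega) A (L e) c a b (h.lv e).few hch hc (hpig e) hS.free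
  have e4 : ∀ i, ∃ n4 : ℕ, e ≠ i → ∀ n ≥ n4, Ind (Lx (L e) x c n a b) (L i) := by
    intro i
    by_cases hei : e = i
    · exact ⟨0, fun hne => absurd hei hne⟩
    · obtain ⟨n4, h4⟩ := lx_ind (by omega) A (L e) (L i) c a b (h.ind e i hei) hch (hpig i)
        (hfree i)
      exact ⟨n4, fun _ => h4⟩
  choose n4 h4 using e4
  obtain ⟨S, hSdef⟩ : ∃ S : ℕ, S = ∑ i ∈ Finset.range n0, n4 i := ⟨_, rfl⟩
  have hSi : ∀ i < n0, n4 i ≤ S := by
    intro i hi
    rw [hSdef]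
    exact Finset.single_le_sum (f := n4) (fun _ _ => Nat.zero_le _) (Finset.mem_range.2 hi)
  obtain ⟨n, hn⟩ : ∃ n, n = n1 + n2 + n3 + S := ⟨_, rfl⟩
  have hindn : ∀ i, e ≠ i → Ind (Lx (L e) x c n a b) (L i) := by
    intro i hei
    rcases lt_or_ge i n0 with hi | hi
    · exact h4 i hei n (by have := hSi i hi; omega)
    · rw [hn0 i hi]
      exact ind_bot _
  refine ⟨Lx (L e) x c n a b, ⟨?_, ⟨n0 + e + 1, ?_⟩, ?_⟩, L_le_Lx (L e) x c n a b,
    fun z hz => h1 n (by omega) z (Or.inl hz), tt x c n, fun j => ?_⟩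
  · intro i
    by_cases hie : i = e
    · subst hie
      rw [Function.update_self]
      exact ⟨(h.lv i).lev, h2 n (by omega), h3 n (by omega), (h.lv i).nc, hm, fun i j hij =>
        h1 n (by omega) _ (Or.inr ⟨⟨(i, j), hij⟩, rfl⟩)⟩
    · rw [Function.update_of_ne hie]
      exact h.lv i
  · intro i hi
    rw [Function.update_of_ne (by omega)]
    exact hn0 i (by omega)
  · intro i j hij
    by_cases hie : i = e
    · subst hie
      rw [Function.update_self, Function.update_of_ne hij.symm]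
      exact hindn j hij
    · rw [Function.update_of_ne hie]
      by_cases hje : j = e
      · subst hje
        rw [Function.update_self]
        exact (hindn i hij.symm).symm
      · rw [Function.update_of_ne hje]
        exact h.ind i j hij
  · exact Subgroup.subset_closure (Or.inr ⟨j, rfl⟩)

/-- the extension step for arbitrary tuples -/
theorem add_step2 {Q : Type} [Group Q] {H : Hyp Q} {L : ℕ → Subgroup Q}
    (h : Fam H L) (e : ℕ) (a b : Fin (e + 2) → Q) (haa : ∀ i j, i ≠ j → (a i)⁻¹ * a j ∉ L e)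
    (hbb : ∀ i j, i ≠ j → (b i)⁻¹ * b j ∉ L e)
    (Z : Set Q) (hZ : Z.Finite) (hZL : ∀ z ∈ Z, z ∉ L e) :
    ∃ L' : Subgroup Q, Fam H (Function.update L e L') ∧ L e ≤ L' ∧ (∀ z ∈ Z, z ∉ L') ∧
      ∃ g : Q, ∀ j, (b j)⁻¹ * g * a j ∈ L' := by
  classical
  have hinf := (h.lv e).inf
  obtain ⟨z, hzz, hz⟩ := new_tuple (L e) (e + 2) (Set.range a ∪ Set.range b)
    ((Set.finite_range a).union (Set.finite_range b))
  obtain ⟨L1, hL1, hle1, hout1, g1, hg1⟩ := add_step h e a z haa hzz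
    (fun i j => hz j (a i) (Or.inl ⟨i, rfl⟩))
    (Z ∪ (Set.range (fun p : {p : Fin (e + 2) × Fin (e + 2) // p.1 ≠ p.2} =>
        (z p.1.1)⁻¹ * z p.1.2) ∪
      (Set.range (fun p : {p : Fin (e + 2) × Fin (e + 2) // p.1 ≠ p.2} =>
        (b p.1.1)⁻¹ * b p.1.2) ∪
        Set.range (fun p : Fin (e + 2) × Fin (e + 2) => (b p.1)⁻¹ * z p.2))))
    (hZ.union ((Set.finite_range _).union ((Set.finite_range _).union (Set.finite_range _)))) (by
      rintro y (hy | ⟨p, rfl⟩ | ⟨p, rfl⟩ | ⟨p, rfl⟩)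
      · exact hZL y hy
      · exact hzz _ _ p.2
      · exact hbb _ _ p.2
      · exact hz _ _ (Or.inr ⟨_, rfl⟩))
  have hup : (Function.update L e L1) e = L1 := Function.update_self _ _ _
  obtain ⟨L2, hL2, hle2, hout2, g2, hg2⟩ := add_step hL1 e z b
    (fun i j hij => by
      rw [hup]
      exact hout1 _ (Or.inr (Or.inl ⟨⟨(i, j), hij⟩, rfl⟩)))
    (fun i j hij => by
      rw [hup]
      exact hout1 _ (Or.inr (Or.inr (Or.inl ⟨⟨(i, j), hij⟩, rfl⟩))))
    (fun i j hmem => by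
      rw [hup] at hmem
      exact hout1 _ (Or.inr (Or.inr (Or.inr ⟨(j, i), rfl⟩))) (by
        have := L1.inv_mem hmem
        rwa [mul_inv_rev, inv_inv] at this))
    Z hZ (fun y hy => by
      rw [hup]
      exact hout1 y (Or.inl hy))
  rw [hup] at hle2
  rw [Function.update_idem] at hL2
  refine ⟨L2, hL2, hle1.trans hle2, hout2, g2 * g1, fun j => ?_⟩
  have h5 := L2.mul_mem (hg2 j) (hle2 (hg1 j))
  have e : (b j)⁻¹ * g2 * z j * ((z j)⁻¹ * g1 * a j) = (b j)⁻¹ * (g2 * g1) * a j := by group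
  rwa [e] at h5

/-- a nontrivial element is moved -/
theorem lv_out {k : ℕ} {Q : Type} [Group Q] {H : Hyp Q} {L : Subgroup Q} (h : Lv k H L)
    (g : Q) (hg : g ≠ 1) : ∃ p : Q, p⁻¹ * g * p ∉ L := by
  classical
  -- elements of infinite order
  have hinf : ∀ g : Q, ¬ IsOfFinOrder g → ∃ p : Q, p⁻¹ * g * p ∉ L := by
    intro g hg
    by_contra hcon
    push Not at hcon
    obtain ⟨hm, hhm⟩ := h.many
    obtain ⟨i, j, hij, hmem⟩ := h.few g hg hm (fun i => hcon _)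
    exact hhm i j hij hmem
  obtain ⟨E, Ps, hE, hL, hPs, hsep⟩ := h.lev
  obtain ⟨ca, cb, hab⟩ := h.nc
  by_contra hcon
  push Not at hcon
  -- the normal closure is inside
  have hN : Subgroup.normalClosure ({g} : Set Q) ≤ L := by
    rw [Subgroup.normalClosure, Subgroup.closure_le]
    intro z hz
    rw [Group.mem_conjugatesOfSet_iff] at hz
    obtain ⟨g', hg', hc⟩ := hz
    rw [Set.mem_singleton_iff] at hg'
    subst hg'
    obtain ⟨p, hp⟩ := isConj_iff.1 hc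
    rw [← hp]
    have := hcon p⁻¹
    rwa [inv_inv] at this
  by_cases htor : IsOfFinOrder g
  swap
  · obtain ⟨p, hp⟩ := hinf g htor
    exact hp (hcon p)
  obtain ⟨x, -, hx, -⟩ := noncomm_data hL hPs hsep ⊤ ca cb (Subgroup.mem_top _)
    (Subgroup.mem_top _) hab
  have hgN : g ∈ Subgroup.normalClosure ({g} : Set Q) := Subgroup.subset_normalClosure rfl
  have hcN : ∀ p : Q, p * g * p⁻¹ ∈ Subgroup.normalClosure ({g} : Set Q) := fun p =>
    Subgroup.normalClosure_normal.conj_mem g hgN p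
  by_cases hcom : ∀ p : Q, g * (p * g * p⁻¹) = p * g * p⁻¹ * g
  swap
  · push Not at hcom
    obtain ⟨p, hp⟩ := hcom
    obtain ⟨z, -, hz, ⟨k1, hk1, hk1N⟩, -⟩ := noncomm_data hL hPs hsep
      (Subgroup.normalClosure ({g} : Set Q)) _ _ hgN (hcN p) hp
    obtain ⟨q, hq⟩ := hinf (z ^ k1) (by
      intro h5
      apply hz
      rcases Int.natAbs_eq k1 with h6 | h6
      · rw [h6, zpow_natCast, isOfFinOrder_pow] at h5
        rcases h5 with h5 | h5
        · exact h5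
        · omega
      · rw [h6, zpow_neg, isOfFinOrder_inv_iff, zpow_natCast, isOfFinOrder_pow] at h5
        rcases h5 with h5 | h5
        · exact h5
        · omega)
    apply hq
    apply hN
    have := Subgroup.normalClosure_normal.conj_mem _ hk1N q⁻¹
    rwa [inv_inv] at this
  -- the conjugates by powers of `x` are in the finite group `⟨g⟩`
  have hfin : (Subgroup.zpowers g : Set Q).Finite := finite_zpowers.2 htor
  obtain ⟨s, -, t, -, hst, heq⟩ := Set.Infinite.exists_ne_map_eq_of_mapsTo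
    (s := (Set.univ : Set ℕ)) (f := fun s : ℕ => x ^ s * g * (x ^ s)⁻¹) Set.infinite_univ
    (t := (Subgroup.zpowers g : Set Q))
    (fun s _ => hL.cen g _ hg htor (hcom (x ^ s))) hfin
  have key : ∀ s t : ℕ, s < t → x ^ s * g * (x ^ s)⁻¹ = x ^ t * g * (x ^ t)⁻¹ → False := by
    intro s t hst heq
    obtain ⟨r, rfl⟩ : ∃ r, t = s + (r + 1) := ⟨t - s - 1, by omega⟩
    have h1 : g * x ^ (r + 1) = x ^ (r + 1) * g := by
      have h2 : x ^ (s + (r + 1)) = x ^ s * x ^ (r + 1) := pow_add _ _ _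
      rw [h2] at heq
      have h3 : g = x ^ (r + 1) * g * (x ^ (r + 1))⁻¹ := by
        have h4 : (x ^ s)⁻¹ * (x ^ s * g * (x ^ s)⁻¹) * x ^ s =
            (x ^ s)⁻¹ * (x ^ s * x ^ (r + 1) * g * (x ^ s * x ^ (r + 1))⁻¹) * x ^ s := by
          rw [heq]
        have h5 : (x ^ s)⁻¹ * (x ^ s * g * (x ^ s)⁻¹) * x ^ s = g := by group
        have h6 : (x ^ s)⁻¹ * (x ^ s * x ^ (r + 1) * g * (x ^ s * x ^ (r + 1))⁻¹) * x ^ s =
            x ^ (r + 1) * g * (x ^ (r + 1))⁻¹ := by group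
        rw [h5, h6] at h4
        exact h4
      exact mul_inv_eq_iff_eq_mul.1 h3.symm |>.symm
    have h7 := hL.com g _ hg htor h1
    apply hx
    rcases isOfFinOrder_pow.1 h7 with h8 | h8
    · exact h8
    · omega
  rcases lt_or_gt_of_ne hst with h1 | h1
  · exact key s t h1 heq
  · exact key t s h1 heq.symm

end Pool.Agent.TH59.TD
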