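import Pool.Agent.TH714.TD.Asm3
import Pool.Agent.TH59.TD.Asm

/-!
# The tower with a family of subgroups and its limit (helper59)
-/

set_option autoImplicit false

namespace Pool.Agent.TH59.TD

open Pool.Agent.TH64 Pool.Agent.TH63.RD Pool.Agent.TH65.B Pool.Agent.TH714.TD

/-- a word and an element to be killed, or a finite orbit -/
theorem pair_core {Q : Type} [Group Q] {H : Hyp Q} {L : ℕ → Subgroup Q} (h : Fam H L)
    {F : Type} [Group F] (φ : F →* Q) (hφ : ∃ u v : F, φ u * φ v ≠ φ v * φ u)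
    {P : Type} [Group P] [Finite P] (τ : F →* P) (hτ : Function.Surjective τ) (s : ℕ)
    (hs : ∏ i ∈ Finset.range s, (i + 2).factorial < Nat.card P) :
    (∃ (W : F) (y : Q), τ W ≠ 1 ∧ Nonempty (Ax H y) ∧ (φ W = y ∨ φ W = y⁻¹) ∧
      ∀ i, Fixes (L i) y) ∨
    (∃ i ≥ s, ∃ (p : Q) (e : ℕ), 0 < e ∧ ∀ w : F, p⁻¹ * (φ w) ^ e * p ∈ L i) := by
  classical
  let X : ∀ i, Set (Q ⧸ L i) := fun i => {p | {q : Q ⧸ L i | ∃ w : F, q = φ w • p}.Finite}
  have hXc : ∀ i, (X i).encard ≤ ((i + 2 : ℕ) : ℕ∞) := fun i => fin_orbits (h.lv i) φ hφ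
  have hXf : ∀ i, (X i).Finite := by
    intro i
    rw [← Set.encard_ne_top_iff]
    intro h5
    have h6 := hXc i
    rw [h5] at h6
    exact ENat.natCast_ne_top _ (top_le_iff.1 h6)
  have hinv : ∀ i (w : F) (p : Q ⧸ L i), p ∈ X i → φ w • p ∈ X i := by
    intro i w p hp
    refine Set.Finite.subset hp ?_
    rintro q ⟨w', rfl⟩
    exact ⟨w' * w, by rw [map_mul, mul_smul]⟩
  have hinv' : ∀ i (w : F) (p : Q ⧸ L i), MulAction.toPerm (φ w) p ∈ X i ↔ p ∈ X i := by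
    intro i w p
    constructor
    · intro hp
      have h5 := hinv i w⁻¹ _ hp
      have h6 : φ w⁻¹ • (MulAction.toPerm (φ w) p) = p := by
        show φ w⁻¹ • (φ w • p) = p
        rw [← mul_smul, ← map_mul, inv_mul_cancel, map_one, one_smul]
      rwa [h6] at h5
    · exact hinv i w p
  have hXfin : ∀ i, Finite (X i) := fun i => (hXf i).to_subtype
  -- the action on the finite orbit points
  let ρ : ∀ i, F →* Equiv.Perm (X i) := fun i => MonoidHom.mk' (fun w =>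
    (MulAction.toPerm (φ w) : Equiv.Perm (Q ⧸ L i)).subtypePerm (fun p => hinv' i w p)) (by
      intro a b
      apply Equiv.ext
      intro p
      apply Subtype.ext
      show φ (a * b) • (p : Q ⧸ L i) = φ a • (φ b • (p : Q ⧸ L i))
      rw [map_mul, mul_smul])
  have hρ : ∀ i w, ρ i w = 1 → ∀ p ∈ X i, φ w • p = p := by
    intro i w hw p hp
    have h5 : (ρ i w ⟨p, hp⟩ : Q ⧸ L i) = p := by rw [hw]; rfl
    exact h5
  by_cases hlarge : ∃ i ≥ s, (X i).Nonempty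
  · right
    obtain ⟨i, hi, p, hp⟩ := hlarge
    obtain ⟨p', rfl⟩ := QuotientGroup.mk_surjective p
    have hf1 : (ρ i).ker.FiniteIndex := inferInstance
    refine ⟨i, hi, p', (ρ i).ker.index, Nat.pos_of_ne_zero hf1.index_ne_zero, fun w => ?_⟩
    have h1 : w ^ (ρ i).ker.index ∈ (ρ i).ker := Subgroup.pow_index_mem _ w
    have h2 := hρ i _ h1 _ hp
    rw [map_pow] at h2
    have h3 : (((φ w) ^ (ρ i).ker.index * p' : Q) : Q ⧸ L i) = ((p' : Q) : Q ⧸ L i) := h2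
    have h4 := QuotientGroup.eq.1 h3.symm
    rwa [← mul_assoc] at h4
  · left
    push Not at hlarge
    let ρs : F →* (∀ i : Fin s, Equiv.Perm (X i)) := MonoidHom.pi (fun i : Fin s => ρ i)
    have hcard : Nat.card (∀ i : Fin s, Equiv.Perm (X i)) < Nat.card P := by
      refine lt_of_le_of_lt ?_ hs
      rw [Nat.card_pi, ← Fin.prod_univ_eq_prod_range (fun i => (i + 2).factorial) s]
      apply Finset.prod_le_prod'
      intro i _
      rw [Nat.card_perm]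
      apply Nat.factorial_le
      rw [Nat.card_coe_set_eq]
      have h6 : ((X i).ncard : ℕ∞) = (X i).encard := (hXf i).cast_ncard_eq
      have h7 := hXc i
      rw [← h6] at h7
      exact_mod_cast h7
    obtain ⟨C0, hC0, hC1⟩ : ∃ C0 : F, ρs C0 = 1 ∧ τ C0 ≠ 1 := by
      by_contra hcon
      push Not at hcon
      have hle : ρs.ker ≤ τ.ker := fun w hw => hcon w hw
      have h1 := Subgroup.index_dvd_of_le hle
      rw [Subgroup.index_ker, Subgroup.index_ker] at h1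
      have h2 : Nat.card τ.range = Nat.card P := by
        rw [MonoidHom.range_eq_top.2 hτ, Subgroup.card_top]
      have h3 : Nat.card ρs.range ≤ Nat.card (∀ i : Fin s, Equiv.Perm (X i)) :=
        Nat.card_le_card_of_injective _ ρs.range.subtype_injective
      have h4 : 0 < Nat.card ρs.range := Nat.card_pos
      have h5 := Nat.le_of_dvd h4 h1
      omega
    have hf1 : ρs.ker.FiniteIndex := inferInstance
    have hf2 : τ.ker.FiniteIndex := inferInstance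
    have hf3 : (ρs.ker ⊓ τ.ker).FiniteIndex := inferInstance
    obtain ⟨W, y, hW, hA, hWy, hy⟩ := core' h φ hφ (ρs.ker ⊓ τ.ker) C0
    have hW1 : ρs W = 1 := by
      have := (Subgroup.mem_inf.1 hW).1
      rw [MonoidHom.mem_ker, map_mul, map_inv, hC0, inv_one, one_mul] at this
      exact this
    have hW2 : τ W = τ C0 := by
      have := (Subgroup.mem_inf.1 hW).2
      rw [MonoidHom.mem_ker, map_mul, map_inv, inv_mul_eq_one] at this
      exact this.symm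
    refine ⟨W, y, by rw [hW2]; exact hC1, hA, hWy, ?_⟩
    rintro i u ⟨t, ht, hmem⟩
    have hfin := hy i u t ht hmem
    have hu : ((u⁻¹ : Q) : Q ⧸ L i) ∈ X i := hfin
    have his : i < s := by
      by_contra hge
      have h8 := hlarge i (by omega)
      rw [h8] at hu
      exact hu
    have hWi : ρ i W = 1 := congrFun hW1 ⟨i, his⟩
    have h7 := hρ i W hWi _ hu
    have h8 : ((φ W * u⁻¹ : Q) : Q ⧸ L i) = ((u⁻¹ : Q) : Q ⧸ L i) := h7
    have h9 := QuotientGroup.eq.1 h8.symm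
    rw [inv_inv, ← mul_assoc] at h9
    rcases hWy with h10 | h10
    · rwa [h10] at h9
    · rw [h10] at h9
      have := (L i).inv_mem h9
      rwa [mul_inv_rev, mul_inv_rev, inv_inv, inv_inv, ← mul_assoc] at this

abbrev F4 := FreeGroup (Fin 4)

/-- substituting four elements -/
def sb4 (u v a b : F2) : F4 →* F2 := FreeGroup.lift ![u, v, a, b]

/-- the map onto the symmetric group, killing the last two generators -/
def tau4 (k : ℕ) : F4 →* Equiv.Perm (Fin (k + 1)) :=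
  FreeGroup.lift ![finRotate (k + 1), Equiv.swap 0 (finRotate (k + 1) 0), 1, 1]

/-- the inclusions of the free group of rank two -/
def in1 : F2 →* F4 := FreeGroup.lift ![FreeGroup.of 0, FreeGroup.of 1]

def in2 : F2 →* F4 := FreeGroup.lift ![FreeGroup.of 2, FreeGroup.of 3]

theorem sb4_in1 (u v a b w : F2) : sb4 u v a b (in1 w) = sb u v w := by
  have h : (sb4 u v a b).comp in1 = sb u v := by
    apply FreeGroup.ext_hom
    intro i
    fin_cases i
    · show sb4 u v a b (in1 (FreeGroup.of 0)) = sb u v (FreeGroup.of 0)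
      rw [sb_zero]
      unfold in1 sb4
      rw [FreeGroup.lift_apply_of]
      show (FreeGroup.lift ![u, v, a, b]) (FreeGroup.of 0) = u
      rw [FreeGroup.lift_apply_of]
      rfl
    · show sb4 u v a b (in1 (FreeGroup.of 1)) = sb u v (FreeGroup.of 1)
      rw [sb_one]
      unfold in1 sb4
      rw [FreeGroup.lift_apply_of]
      show (FreeGroup.lift ![u, v, a, b]) (FreeGroup.of 1) = v
      rw [FreeGroup.lift_apply_of]
      rfl
  exact DFunLike.congr_fun h w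

theorem sb4_in2 (u v a b w : F2) : sb4 u v a b (in2 w) = sb a b w := by
  have h : (sb4 u v a b).comp in2 = sb a b := by
    apply FreeGroup.ext_hom
    intro i
    fin_cases i
    · show sb4 u v a b (in2 (FreeGroup.of 0)) = sb a b (FreeGroup.of 0)
      rw [sb_zero]
      unfold in2 sb4
      rw [FreeGroup.lift_apply_of]
      show (FreeGroup.lift ![u, v, a, b]) (FreeGroup.of 2) = a
      rw [FreeGroup.lift_apply_of]
      rfl
    · show sb4 u v a b (in2 (FreeGroup.of 1)) = sb a b (FreeGroup.of 1)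
      rw [sb_one]
      unfold in2 sb4
      rw [FreeGroup.lift_apply_of]
      show (FreeGroup.lift ![u, v, a, b]) (FreeGroup.of 3) = b
      rw [FreeGroup.lift_apply_of]
      rfl
  exact DFunLike.congr_fun h w

theorem tau4_in1 (k : ℕ) (w : F2) : tau4 k (in1 w) = tau k w := by
  have h : (tau4 k).comp in1 = tau k := by
    apply FreeGroup.ext_hom
    intro i
    fin_cases i
    · show tau4 k (in1 (FreeGroup.of 0)) = tau k (FreeGroup.of 0)
      unfold in1 tau4 tau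
      rw [FreeGroup.lift_apply_of, FreeGroup.lift_apply_of]
      show (FreeGroup.lift _) (FreeGroup.of 0) = _
      rw [FreeGroup.lift_apply_of]
      rfl
    · show tau4 k (in1 (FreeGroup.of 1)) = tau k (FreeGroup.of 1)
      unfold in1 tau4 tau
      rw [FreeGroup.lift_apply_of, FreeGroup.lift_apply_of]
      show (FreeGroup.lift _) (FreeGroup.of 1) = _
      rw [FreeGroup.lift_apply_of]
      rfl
  exact DFunLike.congr_fun h w

theorem tau4_surj (k : ℕ) (hk : 1 ≤ k) : Function.Surjective (tau4 k) := by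
  intro σ
  obtain ⟨w, hw⟩ := tau_surj k hk σ
  exact ⟨in1 w, by rw [tau4_in1, hw]⟩

/-- the data of one stage, in the free group -/
structure Sg where
  R : Subgroup F2
  Lh : ℕ → Subgroup F2
  O : Finset (ℕ × F2)
  st : ∃ (Q : Type) (_ : Group Q) (ψ : F2 →* Q) (H : Hyp Q) (L : ℕ → Subgroup Q),
    Function.Surjective ψ ∧ (∀ g, ψ g = 1 ↔ g ∈ R) ∧ (∀ i g, ψ g ∈ L i ↔ g ∈ Lh i) ∧ Fam H L
  out : ∀ z ∈ O, z.2 ∉ Lh z.1

/-- the group generated by `a`, `b` has a finite orbit -/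
def FO (Lh : Subgroup F2) (a b : F2) : Prop :=
  ∃ (p : F2) (e : ℕ), 0 < e ∧ ∀ w : F2, p⁻¹ * (sb a b w) ^ e * p ∈ Lh

theorem FO.mono {L L' : Subgroup F2} (hle : L ≤ L') {a b : F2} (h : FO L a b) : FO L' a b := by
  obtain ⟨p, e, he, hw⟩ := h
  exact ⟨p, e, he, fun w => hle (hw w)⟩

theorem Sg.uniq (D : Sg) (a b : F2) (hab : a * b * a⁻¹ * b⁻¹ ∉ D.R) (i j : ℕ)
    (hi : FO (D.Lh i) a b) (hj : FO (D.Lh j) a b) : i = j := by
  by_contra hij
  obtain ⟨Q, _, ψ, H, L, hψ, hker, hLh, hF⟩ := D.st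
  obtain ⟨E, Ps, hE, hL, hPs, hsep⟩ := (hF.lv 0).lev
  have hne : ψ a * ψ b ≠ ψ b * ψ a := comm_ne ψ D.R hker a b hab
  obtain ⟨x, -, hx, ⟨k1, hk1, Y, hY⟩, -⟩ := noncomm_data hL hPs hsep (ψ.comp (sb a b)).range
    (ψ a) (ψ b) ⟨FreeGroup.of 0, by rw [MonoidHom.comp_apply, sb_zero]⟩
    ⟨FreeGroup.of 1, by rw [MonoidHom.comp_apply, sb_one]⟩ hne
  have hY' : ψ (sb a b Y) = x ^ k1 := hY
  obtain ⟨p, e, he, hp⟩ := hi
  obtain ⟨p', e', he', hp'⟩ := hj
  have hinf : ¬ IsOfFinOrder (ψ (sb a b Y) ^ (e * e')) := by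
    rw [hY', isOfFinOrder_pow]
    push Not
    have h0 : 0 < e * e' := Nat.mul_pos he he'
    refine ⟨?_, by omega⟩
    intro h5
    apply hx
    rcases Int.natAbs_eq k1 with h6 | h6
    · rw [h6, zpow_natCast, isOfFinOrder_pow] at h5
      rcases h5 with h5 | h5
      · exact h5
      · omega
    · rw [h6, zpow_neg, isOfFinOrder_inv_iff, zpow_natCast, isOfFinOrder_pow] at h5
      rcases h5 with h5 | h5
      · exact h5
      · omega
  have hcp : ∀ (p w : Q) (c : ℕ), p⁻¹ * w ^ c * p = (p⁻¹ * w * p) ^ c := by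
    intro p w c
    have := conj_pow (i := c) (a := p⁻¹) (b := w)
    rw [inv_inv] at this
    exact this.symm
  refine hF.ind i j hij _ hinf (ψ p) (ψ p') ?_ ?_
  · rw [pow_mul, hcp]
    apply (L i).pow_mem
    have := (hLh i _).2 (hp Y)
    rwa [map_mul, map_mul, map_inv, map_pow] at this
  · rw [mul_comm e e', pow_mul, hcp]
    apply (L j).pow_mem
    have := (hLh j _).2 (hp' Y)
    rwa [map_mul, map_mul, map_inv, map_pow] at this

/-- the pair step -/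
theorem pair_step (D : Sg) (k s : ℕ) (hk : 2 ≤ k)
    (hs : ∏ i ∈ Finset.range s, (i + 2).factorial < (k + 1).factorial) (u v a b : F2) :
    ∃ D' : Sg, D.R ≤ D'.R ∧ (∀ i, D.Lh i ≤ D'.Lh i) ∧ D'.O = D.O ∧
      ((∃ W : F4, tau4 k W ≠ 1 ∧ sb4 u v a b W ∈ D'.R) ∨
        ∃ i ≥ s, FO (D'.Lh i) u v ∧ FO (D'.Lh i) a b) := by
  classical
  by_cases huv : u * v * u⁻¹ * v⁻¹ ∈ D.R
  · refine ⟨D, le_rfl, fun _ => le_rfl, rfl, Or.inl ⟨in1 (FreeGroup.of 0 * FreeGroup.of 1 *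
      (FreeGroup.of 0)⁻¹ * (FreeGroup.of 1)⁻¹), ?_, ?_⟩⟩
    · rw [tau4_in1]
      exact tau_comm k hk
    · rw [sb4_in1, map_mul, map_mul, map_mul, map_inv, map_inv, sb_zero, sb_one]
      exact huv
  obtain ⟨Q, _, ψ, H, L, hψ, hker, hLh, hF⟩ := D.st
  have hne : ψ u * ψ v ≠ ψ v * ψ u := comm_ne ψ D.R hker u v huv
  have hcard : Nat.card (Equiv.Perm (Fin (k + 1))) = (k + 1).factorial := by
    rw [Nat.card_perm, Nat.card_eq_fintype_card, Fintype.card_fin]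
  rcases pair_core hF (ψ.comp (sb4 u v a b))
    ⟨in1 (FreeGroup.of 0), in1 (FreeGroup.of 1), by
      simp only [MonoidHom.comp_apply, sb4_in1, sb_zero, sb_one]
      exact hne⟩ (tau4 k) (tau4_surj k (by omega)) s (by rw [hcard]; exact hs) with
    ⟨W, y, hW, ⟨A⟩, hWy, hfix⟩ | ⟨i, hi, p, e, he, hp⟩
  · obtain ⟨N, hNp, hNB, M, hM, H', hyN, hF', hout⟩ := quo_step hF A hfix
      ((D.O.image (fun z => (z.1, ψ z.2)) : Finset (ℕ × Q)) : Set (ℕ × Q))
      (Finset.finite_toSet _) (by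
        intro z hz
        rw [Finset.mem_coe, Finset.mem_image] at hz
        obtain ⟨p, hp, rfl⟩ := hz
        show ψ p.2 ∉ L p.1
        rw [hLh]
        exact D.out p hp) ((k + 1).factorial + 1)
    refine ⟨{ R := M.comap ψ, Lh := fun i => ((L i).map (QuotientGroup.mk' M)).comap
                ((QuotientGroup.mk' M).comp ψ), O := D.O,
              st := ⟨Q ⧸ M, inferInstance, (QuotientGroup.mk' M).comp ψ, H',
                fun i => (L i).map (QuotientGroup.mk' M),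
                (QuotientGroup.mk'_surjective M).comp hψ, ?_, ?_, hF'⟩,
              out := ?_ }, ?_, ?_, rfl, Or.inl ⟨W ^ N, ?_, ?_⟩⟩
    · intro g
      exact QuotientGroup.eq_one_iff _
    · intro i g
      rfl
    · intro z hz hmem
      refine hout (z.1, ψ z.2) ?_ hmem
      rw [Finset.mem_coe, Finset.mem_image]
      exact ⟨z, hz, rfl⟩
    · intro r hr
      show ψ r ∈ M
      rw [(hker r).2 hr]
      exact M.one_mem
    · intro i g hg
      exact ⟨ψ g, (hLh i g).2 hg, rfl⟩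
    · rw [map_pow]
      exact pow_prime_ne k _ hW N hNp (by omega)
    · show ψ (sb4 u v a b (W ^ N)) ∈ M
      rw [map_pow, map_pow]
      have h5 : ψ (sb4 u v a b W) = y ∨ ψ (sb4 u v a b W) = y⁻¹ := hWy
      rcases h5 with h5 | h5
      · rw [h5]
        exact hyN
      · rw [h5, inv_pow]
        exact M.inv_mem hyN
  · obtain ⟨p, rfl⟩ := hψ p
    have h1 : ∀ w : F4, p⁻¹ * (sb4 u v a b w) ^ e * p ∈ D.Lh i := by
      intro w
      rw [← hLh, map_mul, map_mul, map_inv, map_pow]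
      exact hp w
    refine ⟨D, le_rfl, fun _ => le_rfl, rfl, Or.inr ⟨i, hi, ⟨p, e, he, fun w => ?_⟩,
      ⟨p, e, he, fun w => ?_⟩⟩⟩
    · rw [← sb4_in1 u v a b w]
      exact h1 _
    · rw [← sb4_in2 u v a b w]
      exact h1 _

/-- the tuple step -/
theorem tuple_step (D : Sg) (i0 : ℕ) (a b : Fin (i0 + 2) → F2) :
    ∃ D' : Sg, D.R ≤ D'.R ∧ (∀ i, D.Lh i ≤ D'.Lh i) ∧ D'.O = D.O ∧
      ((∀ i j, i ≠ j → (a i)⁻¹ * a j ∉ D.Lh i0) → (∀ i j, i ≠ j → (b i)⁻¹ * b j ∉ D.Lh i0) →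
        ∃ g : F2, ∀ j, (b j)⁻¹ * g * a j ∈ D'.Lh i0) := by
  classical
  by_cases hab : (∀ i j, i ≠ j → (a i)⁻¹ * a j ∉ D.Lh i0) ∧
    (∀ i j, i ≠ j → (b i)⁻¹ * b j ∉ D.Lh i0)
  swap
  · exact ⟨D, le_rfl, fun _ => le_rfl, rfl, fun h1 h2 => absurd ⟨h1, h2⟩ hab⟩
  obtain ⟨haa, hbb⟩ := hab
  obtain ⟨Q, _, ψ, H, L, hψ, hker, hLh, hF⟩ := D.st
  obtain ⟨L', hF', hle, hout, g, hg⟩ := add_step2 hF i0 (fun i => ψ (a i))
    (fun i => ψ (b i)) (fun i j hij => by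
      rw [← map_inv, ← map_mul, hLh]
      exact haa i j hij) (fun i j hij => by
      rw [← map_inv, ← map_mul, hLh]
      exact hbb i j hij)
    (((D.O.filter (fun z => z.1 = i0)).image (fun z => ψ z.2) : Finset Q) : Set Q)
    (Finset.finite_toSet _) (by
      intro z hz
      rw [Finset.mem_coe, Finset.mem_image] at hz
      obtain ⟨p, hp, rfl⟩ := hz
      rw [Finset.mem_filter] at hp
      rw [← hp.2, hLh]
      exact D.out _ hp.1)
  obtain ⟨g', rfl⟩ := hψ g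
  refine ⟨{ R := D.R, Lh := fun i => (Function.update L i0 L' i).comap ψ, O := D.O,
            st := ⟨Q, _, ψ, H, Function.update L i0 L', hψ, hker, fun i g => Iff.rfl, hF'⟩,
            out := ?_ }, le_rfl, ?_, rfl, fun _ _ => ⟨g', fun j => ?_⟩⟩
  · intro z hz hmem
    have hmem' : ψ z.2 ∈ Function.update L i0 L' z.1 := hmem
    by_cases hzi : z.1 = i0
    · rw [hzi, Function.update_self] at hmem'
      refine hout (ψ z.2) ?_ hmem'
      rw [Finset.mem_coe, Finset.mem_image]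
      exact ⟨z, Finset.mem_filter.2 ⟨hz, hzi⟩, rfl⟩
    · rw [Function.update_of_ne hzi, hLh] at hmem'
      exact D.out z hz hmem'
  · intro i r hr
    show ψ r ∈ Function.update L i0 L' i
    by_cases hi : i = i0
    · rw [hi] at hr ⊢
      rw [Function.update_self]
      exact hle ((hLh i0 r).2 hr)
    · rw [Function.update_of_ne hi]
      exact (hLh i r).2 hr
  · show ψ ((b j)⁻¹ * g' * a j) ∈ Function.update L i0 L' i0
    rw [Function.update_self, map_mul, map_mul, map_inv]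
    exact hg j

/-- protecting elements -/
def Sg.protect (D : Sg) (O' : Finset (ℕ × F2)) (h : ∀ z ∈ O', z.2 ∉ D.Lh z.1) : Sg :=
  { R := D.R, Lh := D.Lh, O := O', st := D.st, out := h }

/-- moving one element, and many cosets -/
theorem out_step (D : Sg) (i0 : ℕ) (g : F2) (i1 : ℕ) :
    ∃ D' : Sg, D'.R = D.R ∧ D'.Lh = D.Lh ∧ D.O ⊆ D'.O ∧
      (g ∉ D.R → ∃ p : F2, (i0, p⁻¹ * g * p) ∈ D'.O) ∧
      (∃ h : Fin (i1 + 2) → F2, ∀ s t, s ≠ t → (i1, (h s)⁻¹ * h t) ∈ D'.O) := by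
  classical
  obtain ⟨Q, _, ψ, H, L, hψ, hker, hLh, hF⟩ := D.st
  obtain ⟨hm, hhm⟩ := (hF.lv i1).many
  choose h0 hh0 using fun i => hψ (hm i)
  obtain ⟨h, hh⟩ : ∃ h : Fin (i1 + 2) → F2, h = fun i => h0 (Fin.castSucc i) := ⟨_, rfl⟩
  have hout : ∀ s t, s ≠ t → (h s)⁻¹ * h t ∉ D.Lh i1 := by
    intro s t hst
    rw [← hLh, map_mul, map_inv, hh, hh0, hh0]
    exact hhm _ _ (fun h5 => hst (Fin.castSucc_injective _ h5))
  obtain ⟨O1, hO1⟩ : ∃ O1 : Finset (ℕ × F2), O1 = D.O ∪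
    ((Finset.univ.filter (fun p : Fin (i1 + 2) × Fin (i1 + 2) => p.1 ≠ p.2)).image
      (fun p => (i1, (h p.1)⁻¹ * h p.2))) := ⟨_, rfl⟩
  have hO1out : ∀ z ∈ O1, z.2 ∉ D.Lh z.1 := by
    intro z hz
    rw [hO1, Finset.mem_union] at hz
    rcases hz with hz | hz
    · exact D.out z hz
    · rw [Finset.mem_image] at hz
      obtain ⟨p, hp, rfl⟩ := hz
      exact hout _ _ (Finset.mem_filter.1 hp).2
  have hO1h : ∀ s t, s ≠ t → (i1, (h s)⁻¹ * h t) ∈ O1 := by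
    intro s t hst
    rw [hO1, Finset.mem_union, Finset.mem_image]
    exact Or.inr ⟨(s, t), Finset.mem_filter.2 ⟨Finset.mem_univ _, hst⟩, rfl⟩
  have hO1s : D.O ⊆ O1 := by
    rw [hO1]
    exact Finset.subset_union_left
  by_cases hg : g ∈ D.R
  · exact ⟨D.protect O1 hO1out, rfl, rfl, hO1s, fun h5 => absurd hg h5, h, hO1h⟩
  · have hg1 : ψ g ≠ 1 := fun h5 => hg ((hker g).1 h5)
    obtain ⟨p, hp⟩ := lv_out (hF.lv i0) (ψ g) hg1
    obtain ⟨p, rfl⟩ := hψ p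
    rw [← map_inv, ← map_mul, ← map_mul, hLh] at hp
    refine ⟨D.protect (insert (i0, p⁻¹ * g * p) O1) ?_, rfl, rfl,
      hO1s.trans (Finset.subset_insert _ _), fun _ => ⟨p, Finset.mem_insert_self _ _⟩, h,
      fun s t hst => Finset.mem_insert_of_mem (hO1h s t hst)⟩
    intro z hz
    rcases Finset.mem_insert.1 hz with h5 | h5
    · rw [h5]
      exact hp
    · exact hO1out z h5

/-- the degree of the symmetric group for the bound `s` -/
def mm (s : ℕ) : ℕ := ∏ i ∈ Finset.range s, (i + 2).factorial + 2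

theorem mm_two (s : ℕ) : 2 ≤ mm s := by unfold mm; omega

theorem mm_lt (s : ℕ) : ∏ i ∈ Finset.range s, (i + 2).factorial < (mm s + 1).factorial := by
  have h1 : mm s + 1 ≤ (mm s + 1).factorial := Nat.self_le_factorial _
  unfold mm at h1 ⊢
  omega

/-- the tasks -/
structure Task where
  s : ℕ
  u : F2
  v : F2
  a : F2
  b : F2
  e : Σ i : ℕ, (Fin (i + 2) → F2) × (Fin (i + 2) → F2)
  i0 : ℕ
  g : F2
  i1 : ℕ

theorem task_enum : ∃ en : ℕ → Task, Function.Surjective en := by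
  have : Countable F2 := inferInstance
  obtain ⟨en, hen⟩ := exists_surjective_nat
    (ℕ × F2 × F2 × F2 × F2 × (Σ i : ℕ, (Fin (i + 2) → F2) × (Fin (i + 2) → F2)) × ℕ × F2 × ℕ)
  refine ⟨fun j => ⟨(en j).1, (en j).2.1, (en j).2.2.1, (en j).2.2.2.1, (en j).2.2.2.2.1,
    (en j).2.2.2.2.2.1, (en j).2.2.2.2.2.2.1, (en j).2.2.2.2.2.2.2.1,
    (en j).2.2.2.2.2.2.2.2⟩, ?_⟩
  rintro ⟨s, u, v, a, b, e, i0, g, i1⟩
  obtain ⟨j, hj⟩ := hen (s, u, v, a, b, e, i0, g, i1)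
  exact ⟨j, by simp only [hj]⟩

/-- one full step -/
theorem full_step (D : Sg) (T : Task) :
    ∃ D' : Sg, D.R ≤ D'.R ∧ (∀ i, D.Lh i ≤ D'.Lh i) ∧ D.O ⊆ D'.O ∧
      ((∃ W : F4, tau4 (mm T.s) W ≠ 1 ∧ sb4 T.u T.v T.a T.b W ∈ D'.R) ∨
        ∃ i ≥ T.s, FO (D'.Lh i) T.u T.v ∧ FO (D'.Lh i) T.a T.b) ∧
      ((∀ i j, i ≠ j → (T.e.2.1 i)⁻¹ * T.e.2.1 j ∉ D'.Lh T.e.1) →
        (∀ i j, i ≠ j → (T.e.2.2 i)⁻¹ * T.e.2.2 j ∉ D'.Lh T.e.1) →
        ∃ g : F2, ∀ j, (T.e.2.2 j)⁻¹ * g * T.e.2.1 j ∈ D'.Lh T.e.1) ∧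
      (T.g ∉ D'.R → ∃ p : F2, (T.i0, p⁻¹ * T.g * p) ∈ D'.O) ∧
      (∃ h : Fin (T.i1 + 2) → F2, ∀ s t, s ≠ t → (T.i1, (h s)⁻¹ * h t) ∈ D'.O) := by
  obtain ⟨D1, h1, h2, h3, h4⟩ := pair_step D (mm T.s) T.s (mm_two _) (mm_lt _) T.u T.v T.a T.b
  obtain ⟨D2, g1, g2, g3, g4⟩ := tuple_step D1 T.e.1 T.e.2.1 T.e.2.2
  obtain ⟨D3, f1, f2, f3, f4, f5⟩ := out_step D2 T.i0 T.g T.i1
  refine ⟨D3, ?_, ?_, ?_, ?_, ?_, ?_, f5⟩
  · rw [f1]
    exact h1.trans g1
  · intro i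
    rw [f2]
    exact (h2 i).trans (g2 i)
  · rw [← h3, ← g3]
    exact f3
  · rcases h4 with ⟨W, hW, hW2⟩ | ⟨i, hi, hi1, hi2⟩
    · left
      refine ⟨W, hW, ?_⟩
      rw [f1]
      exact g1 hW2
    · right
      refine ⟨i, hi, ?_, ?_⟩
      · rw [f2]
        exact hi1.mono (g2 i)
      · rw [f2]
        exact hi2.mono (g2 i)
  · intro q1 q2
    rw [f2] at q1 q2 ⊢
    exact g4 (fun i j hij hm => q1 i j hij (g2 _ hm)) (fun i j hij hm => q2 i j hij (g2 _ hm))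
  · rw [f1]
    exact f4

/-- the first stage -/
theorem base : Nonempty Sg := by
  classical
  obtain ⟨D⟩ := Pool.Agent.TH714.TD.base 2
  obtain ⟨Q, _, ψ, H, L, hψ, hker, hLh, hLv⟩ := D.st
  refine ⟨{ R := D.R, Lh := fun _ => (⊥ : Subgroup Q).comap ψ, O := ∅,
            st := ⟨Q, _, ψ, H, fun _ => ⊥, hψ, hker, fun i g => Iff.rfl, ?_⟩, out := ?_ }⟩
  · exact ⟨fun i => lv_bot hLv, ⟨0, fun _ _ => rfl⟩, fun i j _ => ind_bot _⟩
  · intro z hz
    exact absurd hz (Finset.notMem_empty z)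

/-- **the limit** -/
theorem limit : ∃ (R : Subgroup F2) (_ : R.Normal) (Lh : ℕ → Subgroup F2)
    (T : ℕ → F2 → F2 → Prop),
    (∀ i, R ≤ Lh i) ∧
    (∀ i, ∃ h : Fin (i + 2) → F2, ∀ s t, s ≠ t → (h s)⁻¹ * h t ∉ Lh i) ∧
    (∀ i g, g ∉ R → ∃ p : F2, p⁻¹ * g * p ∉ Lh i) ∧
    (∀ i, ∀ a b : Fin (i + 2) → F2, (∀ s t, s ≠ t → (a s)⁻¹ * a t ∉ Lh i) →
      (∀ s t, s ≠ t → (b s)⁻¹ * b t ∉ Lh i) → ∃ g : F2, ∀ j, (b j)⁻¹ * g * a j ∈ Lh i) ∧
    (∀ i j a b, a * b * a⁻¹ * b⁻¹ ∉ R → T i a b → T j a b → i = j) ∧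
    (∀ s u v a b, (∃ W : F4, tau4 (mm s) W ≠ 1 ∧ sb4 u v a b W ∈ R) ∨
      ∃ i ≥ s, T i u v ∧ T i a b) := by
  classical
  obtain ⟨en, hen⟩ := task_enum
  obtain ⟨D0⟩ := base
  have hstep := fun (j : ℕ) (D : Sg) => full_step D (en j)
  choose nx n1 n2 n3 n4 n5 n6 n7 using hstep
  let sq : ℕ → Sg := fun j => Nat.rec D0 (fun j D => nx j D) j
  have hsucc : ∀ j, sq (j + 1) = nx j (sq j) := fun j => rfl
  have hmono : Monotone (fun j => (sq j).R) := by
    apply monotone_nat_of_le_succ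
    intro j
    rw [hsucc]
    exact n1 j _
  have hmonoL : ∀ i, Monotone (fun j => (sq j).Lh i) := by
    intro i
    apply monotone_nat_of_le_succ
    intro j
    rw [hsucc]
    exact n2 j _ i
  have hmonoO : Monotone (fun j => (sq j).O) := by
    apply monotone_nat_of_le_succ
    intro j
    rw [hsucc]
    exact n3 j _
  set R : Subgroup F2 := ⨆ j, (sq j).R with hR
  obtain ⟨Lh, hLh⟩ : ∃ Lh : ℕ → Subgroup F2, Lh = fun i => ⨆ j, (sq j).Lh i := ⟨_, rfl⟩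
  have hmem : ∀ g, g ∈ R ↔ ∃ j, g ∈ (sq j).R := by
    intro g
    exact Subgroup.mem_iSup_of_directed hmono.directed_le
  have hmemL : ∀ i g, g ∈ Lh i ↔ ∃ j, g ∈ (sq j).Lh i := by
    intro i g
    rw [hLh]
    exact Subgroup.mem_iSup_of_directed (hmonoL i).directed_le
  have hRL : ∀ i j, (sq j).R ≤ (sq j).Lh i := by
    intro i j g hg
    obtain ⟨Q, _, ψ, H, L, hψ, hker, hLh, hLv⟩ := (sq j).st
    rw [← hLh, (hker g).2 hg]
    exact (L i).one_mem
  have hOout : ∀ j, ∀ z ∈ (sq j).O, z.2 ∉ Lh z.1 := by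
    intro j z hz hmem2
    obtain ⟨i, hi⟩ := (hmemL _ _).1 hmem2
    exact (sq (max i j)).out z (hmonoO (le_max_right i j) hz) (hmonoL _ (le_max_left i j) hi)
  have hnormj : ∀ j, ((sq j).R).Normal := by
    intro j
    obtain ⟨Q, _, ψ, H, L, -, hker, -⟩ := (sq j).st
    have : (sq j).R = ψ.ker := by
      ext g
      rw [MonoidHom.mem_ker, hker]
    rw [this]
    infer_instance
  have hnorm : R.Normal := by
    constructor
    intro n hn g
    rw [hmem] at hn ⊢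
    obtain ⟨j, hj⟩ := hn
    exact ⟨j, (hnormj j).conj_mem n hj g⟩
  refine ⟨R, hnorm, Lh, fun i a b => ∃ j, FO ((sq j).Lh i) a b, ?_, ?_, ?_, ?_, ?_, ?_⟩
  · intro i g hg
    obtain ⟨j, hj⟩ := (hmem g).1 hg
    exact (hmemL i g).2 ⟨j, hRL i j hj⟩
  · intro i
    obtain ⟨j, hj⟩ := hen ⟨0, 1, 1, 1, 1, ⟨0, fun _ => 1, fun _ => 1⟩, 0, 1, i⟩
    have h5 := n7 j (sq j)
    rw [hj, ← hsucc] at h5
    obtain ⟨h, hh⟩ := h5
    exact ⟨h, fun s t hst => hOout (j + 1) _ (hh s t hst)⟩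
  · intro i g hg
    obtain ⟨j, hj⟩ := hen ⟨0, 1, 1, 1, 1, ⟨0, fun _ => 1, fun _ => 1⟩, i, g, 0⟩
    have h5 := n6 j (sq j)
    rw [hj, ← hsucc] at h5
    obtain ⟨p, hp⟩ := h5 (fun h6 => hg ((hmem g).2 ⟨j + 1, h6⟩))
    exact ⟨p, hOout (j + 1) _ hp⟩
  · intro i a b haa hbb
    obtain ⟨j, hj⟩ := hen ⟨0, 1, 1, 1, 1, ⟨i, a, b⟩, 0, 1, 0⟩
    have h5 := n5 j (sq j)
    rw [hj, ← hsucc] at h5
    obtain ⟨g, hg⟩ := h5 (fun s t hst hm => haa s t hst ((hmemL _ _).2 ⟨j + 1, hm⟩))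
      (fun s t hst hm => hbb s t hst ((hmemL _ _).2 ⟨j + 1, hm⟩))
    exact ⟨g, fun s => (hmemL _ _).2 ⟨j + 1, hg s⟩⟩
  · rintro i j a b hab ⟨n, hn⟩ ⟨m, hm⟩
    refine (sq (max n m)).uniq a b (fun h6 => hab ((hmem _).2 ⟨_, h6⟩)) i j
      (hn.mono (hmonoL i (le_max_left n m))) (hm.mono (hmonoL j (le_max_right n m)))
  · intro s u v a b
    obtain ⟨j, hj⟩ := hen ⟨s, u, v, a, b, ⟨0, fun _ => 1, fun _ => 1⟩, 0, 1, 0⟩
    have h5 := n4 j (sq j)
    rw [hj, ← hsucc] at h5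
    rcases h5 with ⟨W, hW, hW2⟩ | ⟨i, hi, hi1, hi2⟩
    · exact Or.inl ⟨W, hW, (hmem _).2 ⟨j + 1, hW2⟩⟩
    · exact Or.inr ⟨i, hi, ⟨j + 1, hi1⟩, ⟨j + 1, hi2⟩⟩

end Pool.Agent.TH59.TD
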